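import Pool.Agent.W5h69.CR.Graph

/-!
# The common part of two convex flats
-/

set_option autoImplicit false

namespace Pool.Agent.W5h69.CR

variable {V : Type*} {Γ : SimpleGraph V} {f₁ f₂ : ℤ × ℤ → V}

theorem sq (h : IsMedian Γ) (h₁ : IsFlat Γ f₁) (h₂ : IsFlat Γ f₂) {z p q r : ℤ × ℤ}
    (zp : |z.1 - p.1| + |z.2 - p.2| = 1) (zq : |z.1 - q.1| + |z.2 - q.2| = 1)
    (pr : |p.1 - r.1| + |p.2 - r.2| = 1) (qr : |q.1 - r.1| + |q.2 - r.2| = 1)
    (hzr : z ≠ r) (hpq : p ≠ q) (ez : f₁ z = f₂ z) (ep : f₁ p = f₂ p) (eq : f₁ q = f₂ q) :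
    f₁ r = f₂ r := by
  by_contra hne
  have a1 := (h₁.adj zp).symm
  have a2 := h₁.adj pr
  have a3 := h₂.adj pr
  rw [← ep] at a3
  have b1 := (h₁.adj zq).symm
  have b2 := h₁.adj qr
  have b3 := h₂.adj qr
  rw [← eq] at b3
  have := k23 h a1 a2 a3 b1 b2 b3 (fun e => hzr (h₁.inj e)) hne
    (fun e => hzr (h₂.inj (by rw [← ez, e])))
  exact hpq (h₁.inj this)

/-- Two flats which agree along a segment of a row and at one vertex of an adjacent row above or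
below it agree along the whole segment of this row. -/
theorem rowprop (h : IsMedian Γ) (h₁ : IsFlat Γ f₁) (h₂ : IsFlat Γ f₂) {x0 x1 y y' : ℤ}
    (hy : |y - y'| = 1) (hrow : ∀ x, x0 ≤ x → x ≤ x1 → f₁ (x, y) = f₂ (x, y)) {x : ℤ}
    (hx0 : x0 ≤ x) (hx1 : x ≤ x1) (he : f₁ (x, y') = f₂ (x, y')) :
    ∀ x', x0 ≤ x' → x' ≤ x1 → f₁ (x', y') = f₂ (x', y') := by
  have hne : y ≠ y' := by
    rintro rfl
    simp at hy
  have hst : ∀ x x' : ℤ, |x - x'| = 1 → x0 ≤ x → x ≤ x1 → x0 ≤ x' → x' ≤ x1 →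
      f₁ (x, y') = f₂ (x, y') → f₁ (x', y') = f₂ (x', y') := by
    intro x x' hxx a b c d e
    refine sq h h₁ h₂ (z := (x, y)) (p := (x, y')) (q := (x', y)) ?_ ?_ ?_ ?_ ?_ ?_
      (hrow x a b) e (hrow x' c d)
    · simpa using hy
    · simpa using hxx
    · simpa using hxx
    · simpa using hy
    · intro e
      rw [Prod.mk.injEq] at e
      exact hne e.2
    · intro e
      rw [Prod.mk.injEq] at e
      exact hne e.2.symm
  have up : ∀ n : ℕ, x + n ≤ x1 → f₁ (x + n, y') = f₂ (x + n, y') := by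
    intro n
    induction n with
    | zero => intro _; simpa using he
    | succ n ih =>
      intro hn
      push_cast at hn ⊢
      refine hst (x + n) _ ?_ (by omega) (by omega) (by omega) (by omega) (ih (by omega))
      rw [show x + n - (x + (n + 1)) = -1 by ring]
      simp
  have down : ∀ n : ℕ, x0 ≤ x - n → f₁ (x - n, y') = f₂ (x - n, y') := by
    intro n
    induction n with
    | zero => intro _; simpa using he
    | succ n ih =>
      intro hn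
      push_cast at hn ⊢
      refine hst (x - n) _ ?_ (by omega) (by omega) (by omega) (by omega) (ih (by omega))
      rw [show x - n - (x - (n + 1)) = 1 by ring]
      simp
  intro x' h0 h1
  rcases le_total x x' with hx | hx
  · obtain ⟨n, hn⟩ := Int.eq_ofNat_of_zero_le (sub_nonneg.2 hx)
    have := up n (by omega)
    rwa [show x + (n : ℤ) = x' by omega] at this
  · obtain ⟨n, hn⟩ := Int.eq_ofNat_of_zero_le (sub_nonneg.2 hx)
    have := down n (by omega)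
    rwa [show x - (n : ℤ) = x' by omega] at this

/-- Agreement on the rectangle `[a, b] × [c, d]`. -/
def Agree (f₁ f₂ : ℤ × ℤ → V) (a b c d : ℤ) : Prop :=
  ∀ x y, a ≤ x → x ≤ b → c ≤ y → y ≤ d → f₁ (x, y) = f₂ (x, y)

/-- Extension of the rectangle of agreement upwards. -/
theorem ext_up (h : IsMedian Γ) (h₁ : IsFlat Γ f₁) (h₂ : IsFlat Γ f₂) {a b c d : ℤ} (_hab : a ≤ b)
    (_hcd : c ≤ d) (hA : Agree f₁ f₂ a b c d) :
    (∀ x y, a ≤ x → x ≤ b → c ≤ y → f₁ (x, y) = f₂ (x, y)) ∨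
    ∃ d', d ≤ d' ∧ Agree f₁ f₂ a b c d' ∧ ∀ x, a ≤ x → x ≤ b → f₁ (x, d' + 1) ≠ f₂ (x, d' + 1) := by
  classical
  by_cases hall : ∀ x y, a ≤ x → x ≤ b → c ≤ y → f₁ (x, y) = f₂ (x, y)
  · exact Or.inl hall
  · right
    push Not at hall
    obtain ⟨x0, y0, p1, p2, p3, p4⟩ := hall
    have hex : ∃ n : ℕ, ∃ x, a ≤ x ∧ x ≤ b ∧ f₁ (x, d + 1 + n) ≠ f₂ (x, d + 1 + n) := by
      have hd : d < y0 := by
        by_contra hcon
        exact p4 (hA x0 y0 p1 p2 p3 (by omega))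
      refine ⟨(y0 - d - 1).toNat, x0, p1, p2, ?_⟩
      rwa [show d + 1 + ((y0 - d - 1).toNat : ℤ) = y0 by omega]
    have hspec := Nat.find_spec hex
    have hmin := fun m => Nat.find_min hex (m := m)
    set n := Nat.find hex with hn
    have hA' : Agree f₁ f₂ a b c (d + n) := by
      intro x y q1 q2 q3 q4
      by_cases hy : y ≤ d
      · exact hA x y q1 q2 q3 hy
      · have := hmin (y - d - 1).toNat (by omega)
        push Not at this
        have := this x q1 q2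
        rwa [show d + 1 + ((y - d - 1).toNat : ℤ) = y by omega] at this
    refine ⟨d + n, by omega, hA', fun x q1 q2 he => ?_⟩
    obtain ⟨x', r1, r2, r3⟩ := hspec
    apply r3
    rw [show d + 1 + (n : ℤ) = d + n + 1 by ring]
    refine rowprop h h₁ h₂ (y := d + n) (y' := d + n + 1) ?_ (fun x s1 s2 => hA' x _ s1 s2
      (by omega) le_rfl) q1 q2 he x' r1 r2
    rw [show d + (n : ℤ) - (d + n + 1) = -1 by ring]
    simp

theorem IsFlat.neg2 {f : ℤ × ℤ → V} (hf : IsFlat Γ f) : IsFlat Γ (fun z => f (z.1, -z.2)) :=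
  fun z w => by
    rw [hf]
    congr 1
    simp only
    rw [show -z.2 - -w.2 = -(z.2 - w.2) by ring, abs_neg]

theorem ConvexImage.neg2 {f : ℤ × ℤ → V} (hf : ConvexImage Γ f) :
    ConvexImage Γ (fun z => f (z.1, -z.2)) :=
  hf.comp (t := fun z => (z.1, -z.2)) fun p => ⟨(p.1, -p.2), by simp⟩

theorem ext_down (h : IsMedian Γ) (h₁ : IsFlat Γ f₁) (h₂ : IsFlat Γ f₂) {a b c d : ℤ}
    (hab : a ≤ b) (hcd : c ≤ d) (hA : Agree f₁ f₂ a b c d) :
    (∀ x y, a ≤ x → x ≤ b → y ≤ d → f₁ (x, y) = f₂ (x, y)) ∨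
    ∃ c', c' ≤ c ∧ Agree f₁ f₂ a b c' d ∧ ∀ x, a ≤ x → x ≤ b → f₁ (x, c' - 1) ≠ f₂ (x, c' - 1) := by
  rcases ext_up h h₁.neg2 h₂.neg2 (a := a) (b := b) (c := -d) (d := -c) hab (by omega)
    (fun x y q1 q2 q3 q4 => hA x (-y) q1 q2 (by omega) (by omega)) with h3 | ⟨d', h3, h4, h5⟩
  · left
    intro x y q1 q2 q3
    have := h3 x (-y) q1 q2 (by omega)
    simpa using this
  · right
    refine ⟨-d', by omega, fun x y q1 q2 q3 q4 => ?_, fun x q1 q2 => ?_⟩
    · have := h4 x (-y) q1 q2 (by omega) (by omega)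
      simpa using this
    · have := h5 x q1 q2
      simpa [sub_eq_add_neg, add_comm] using this

theorem ext_right (h : IsMedian Γ) (h₁ : IsFlat Γ f₁) (h₂ : IsFlat Γ f₂) {a b c d : ℤ}
    (hab : a ≤ b) (hcd : c ≤ d) (hA : Agree f₁ f₂ a b c d) :
    (∀ x y, a ≤ x → c ≤ y → y ≤ d → f₁ (x, y) = f₂ (x, y)) ∨
    ∃ b', b ≤ b' ∧ Agree f₁ f₂ a b' c d ∧ ∀ y, c ≤ y → y ≤ d → f₁ (b' + 1, y) ≠ f₂ (b' + 1, y) := by
  rcases ext_up h h₁.swap h₂.swap (a := c) (b := d) (c := a) (d := b) hcd hab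
    (fun x y q1 q2 q3 q4 => hA y x q3 q4 q1 q2) with h3 | ⟨d', h3, h4, h5⟩
  · exact Or.inl fun x y q1 q2 q3 => h3 y x q2 q3 q1
  · exact Or.inr ⟨d', h3, fun x y q1 q2 q3 q4 => h4 y x q3 q4 q1 q2, h5⟩

theorem ext_left (h : IsMedian Γ) (h₁ : IsFlat Γ f₁) (h₂ : IsFlat Γ f₂) {a b c d : ℤ}
    (hab : a ≤ b) (hcd : c ≤ d) (hA : Agree f₁ f₂ a b c d) :
    (∀ x y, x ≤ b → c ≤ y → y ≤ d → f₁ (x, y) = f₂ (x, y)) ∨
    ∃ a', a' ≤ a ∧ Agree f₁ f₂ a' b c d ∧ ∀ y, c ≤ y → y ≤ d → f₁ (a' - 1, y) ≠ f₂ (a' - 1, y) := by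
  rcases ext_down h h₁.swap h₂.swap (a := c) (b := d) (c := a) (d := b) hcd hab
    (fun x y q1 q2 q3 q4 => hA y x q3 q4 q1 q2) with h3 | ⟨d', h3, h4, h5⟩
  · exact Or.inl fun x y q1 q2 q3 => h3 y x q2 q3 q1
  · exact Or.inr ⟨d', h3, fun x y q1 q2 q3 q4 => h4 y x q3 q4 q1 q2, h5⟩

/-- Two convex flats which agree on a rectangle and nowhere along the segment above it meet in no
vertex above it. -/
theorem top_case (h : IsMedian Γ) (h₁ : IsFlat Γ f₁) (h₂ : IsFlat Γ f₂)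
    (hc₂ : ConvexImage Γ f₂) {a b c d : ℤ} (hab : a < b) (hcd : c < d)
    (hA : Agree f₁ f₂ a b c d) (htop : ∀ x, a ≤ x → x ≤ b → f₁ (x, d + 1) ≠ f₂ (x, d + 1))
    {z w : ℤ × ℤ} (hzw : f₁ z = f₂ w) : z.2 ≤ d := by
  by_contra hz
  push Not at hz
  -- the nearest vertex of the rectangle
  obtain ⟨x, hax, hxb, hx⟩ : ∃ x, a ≤ x ∧ x ≤ b ∧ x = max a (min b z.1) :=
    ⟨max a (min b z.1), by omega, by omega, rfl⟩
  have e0 : f₁ (x, d) = f₂ (x, d) := hA x d hax hxb hcd.le le_rfl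
  have g1 := d1 (h₁.up x d)
  have g2 := h₁ (x, d + 1) z
  have g3 := h₁ (x, d) z
  simp only at g2 g3
  rw [abs_of_nonpos (show d + 1 - z.2 ≤ 0 by omega)] at g2
  rw [abs_of_nonpos (show d - z.2 ≤ 0 by omega)] at g3
  obtain ⟨q, hq⟩ := hc₂ (x, d) w (f₁ (x, d + 1)) (by
    rw [← e0, ← hzw]
    omega)
  have g4 := h₂ (x, d) q
  rw [← e0, hq] at g4
  simp only at g4
  have g5 : |x - q.1| + |d - q.2| = 1 := by
    rw [← g4, d1 (h₁.up x d)]
    rfl
  have hin : ∀ u v, a ≤ u → u ≤ b → c ≤ v → v ≤ d → q ≠ (u, v) := by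
    rintro u v q1 q2 q3 q4 rfl
    rw [← hA u v q1 q2 q3 q4] at hq
    have := h₁.inj hq
    rw [Prod.mk.injEq] at this
    omega
  rcases abs_cases (x - q.1) with ⟨s1, s2⟩ | ⟨s1, s2⟩ <;>
    rcases abs_cases (d - q.2) with ⟨t1, t2⟩ | ⟨t1, t2⟩
  · -- q is on the left or below
    rcases eq_or_ne q.1 x with e | e
    · exact hin x (d - 1) hax hxb (by omega) (by omega) (Prod.ext e (by simp only; omega))
    · have e1 : q.1 = x - 1 := by omega
      have e2 : q.2 = d := by omega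
      by_cases hxa : a ≤ x - 1
      · exact hin (x - 1) d hxa (by omega) hcd.le le_rfl (Prod.ext e1 e2)
      · -- corner on the left
        have hxa' : x = a := by omega
        subst hxa'
        have hq' : q = (x - 1, d) := Prod.ext e1 e2
        subst hq'
        have m1 : Γ.Adj (f₂ (x - 1, d)) (f₁ (x + 1, d + 1)) := by
          rw [hq]
          exact h₁.right x (d + 1)
        have m2 : Γ.Adj (f₂ (x - 1 + 1 + 1, d)) (f₁ (x + 1, d + 1)) := by
          rw [show x - 1 + 1 + 1 = x + 1 by ring, ← hA (x + 1) d (by omega) (by omega) hcd.le le_rfl]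
          exact h₁.up (x + 1) d
        have := mid h₂ hc₂ (x - 1) d _ m1 m2
        rw [show x - 1 + 1 = x by ring, ← e0] at this
        have := h₁.inj this
        rw [Prod.mk.injEq] at this
        omega
  · -- q above
    have e1 : q.1 = x := by omega
    have e2 : q.2 = d + 1 := by omega
    have hq' : q = (x, d + 1) := Prod.ext e1 e2
    subst hq'
    exact htop x hax hxb hq.symm
  · -- q on the right
    have e1 : q.1 = x + 1 := by omega
    have e2 : q.2 = d := by omega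
    by_cases hxb' : x + 1 ≤ b
    · exact hin (x + 1) d (by omega) hxb' hcd.le le_rfl (Prod.ext e1 e2)
    · have hxa' : x = b := by omega
      subst hxa'
      have hq' : q = (x + 1, d) := Prod.ext e1 e2
      subst hq'
      have m1 : Γ.Adj (f₂ (x - 1, d)) (f₁ (x - 1, d + 1)) := by
        rw [← hA (x - 1) d (by omega) (by omega) hcd.le le_rfl]
        exact h₁.up (x - 1) d
      have m2 : Γ.Adj (f₂ (x - 1 + 1 + 1, d)) (f₁ (x - 1, d + 1)) := by
        rw [show x - 1 + 1 + 1 = x + 1 by ring, hq]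
        have := (h₁.right (x - 1) (d + 1)).symm
        rwa [show x - 1 + 1 = x by ring] at this
      have := mid h₂ hc₂ (x - 1) d _ m1 m2
      rw [show x - 1 + 1 = x by ring, ← e0] at this
      have := h₁.inj this
      rw [Prod.mk.injEq] at this
      omega
  · omega

/-- A maximal rectangle of agreement is the whole common part. -/
theorem exact_rect (h : IsMedian Γ) (h₁ : IsFlat Γ f₁) (h₂ : IsFlat Γ f₂)
    (hc₂ : ConvexImage Γ f₂) {a b c d : ℤ} (hab : a < b) (hcd : c < d)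
    (hA : Agree f₁ f₂ a b c d) (htop : ∀ x, a ≤ x → x ≤ b → f₁ (x, d + 1) ≠ f₂ (x, d + 1))
    (hbot : ∀ x, a ≤ x → x ≤ b → f₁ (x, c - 1) ≠ f₂ (x, c - 1))
    (hright : ∀ y, c ≤ y → y ≤ d → f₁ (b + 1, y) ≠ f₂ (b + 1, y))
    (hleft : ∀ y, c ≤ y → y ≤ d → f₁ (a - 1, y) ≠ f₂ (a - 1, y)) (z w : ℤ × ℤ) :
    f₁ z = f₂ w ↔ w = z ∧ a ≤ z.1 ∧ z.1 ≤ b ∧ c ≤ z.2 ∧ z.2 ≤ d := by
  constructor
  · intro hzw
    have t1 : z.2 ≤ d := top_case h h₁ h₂ hc₂ hab hcd hA htop hzw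
    have t2 : z.1 ≤ b := top_case h h₁.swap h₂.swap hc₂.swap (a := c) (b := d) (c := a) (d := b)
      hcd hab (fun x y q1 q2 q3 q4 => hA y x q3 q4 q1 q2) hright (z := (z.2, z.1))
      (w := (w.2, w.1)) hzw
    have t3 : -z.2 ≤ -c := by
      refine top_case h h₁.neg2 h₂.neg2 hc₂.neg2 (a := a) (b := b) (c := -d) (d := -c)
        hab (by omega) (fun x y q1 q2 q3 q4 => hA x (-y) q1 q2 (by omega) (by omega)) ?_
        (z := (z.1, -z.2)) (w := (w.1, -w.2)) (by simpa using hzw)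
      intro x q1 q2
      have := hbot x q1 q2
      rwa [show -(-c + 1) = c - 1 by ring]
    have t4 : -z.1 ≤ -a := by
      refine top_case h h₁.swap.neg2 h₂.swap.neg2 hc₂.swap.neg2 (a := c) (b := d) (c := -b)
        (d := -a) hcd (by omega) (fun x y q1 q2 q3 q4 => hA (-y) x (by omega) (by omega) q1 q2) ?_
        (z := (z.2, -z.1)) (w := (w.2, -w.1)) (by simpa using hzw)
      intro x q1 q2
      have := hleft x q1 q2
      rwa [show -(-a + 1) = a - 1 by ring]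
    have hz := hA z.1 z.2 (by omega) t2 (by omega) t1
    refine ⟨h₂.inj ?_, by omega, t2, by omega, t1⟩
    rw [← hzw]
    exact hz
  · rintro ⟨rfl, q1, q2, q3, q4⟩
    exact hA w.1 w.2 q1 q2 q3 q4

/-- Two convex flats which agree on a square agree on a half-strip or meet exactly in a finite
rectangle. -/
theorem max_rect (h : IsMedian Γ) (h₁ : IsFlat Γ f₁) (h₂ : IsFlat Γ f₂)
    (hc₂ : ConvexImage Γ f₂) {x y n : ℤ} (hn : 0 < n)
    (hA : Agree f₁ f₂ x (x + n) y (y + n)) :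
    (∀ i j, x ≤ i → i ≤ x + n → y ≤ j → f₁ (i, j) = f₂ (i, j)) ∨
    (∀ i j, x ≤ i → i ≤ x + n → j ≤ y + n → f₁ (i, j) = f₂ (i, j)) ∨
    (∀ i j, x ≤ i → y ≤ j → j ≤ y + n → f₁ (i, j) = f₂ (i, j)) ∨
    (∀ i j, i ≤ x + n → y ≤ j → j ≤ y + n → f₁ (i, j) = f₂ (i, j)) ∨
    ∃ a b c d : ℤ, n ≤ b - a ∧ n ≤ d - c ∧ ∀ z w : ℤ × ℤ,
      f₁ z = f₂ w ↔ w = z ∧ a ≤ z.1 ∧ z.1 ≤ b ∧ c ≤ z.2 ∧ z.2 ≤ d := by
  rcases ext_up h h₁ h₂ (by omega) (by omega) hA with h3 | ⟨d, hd, hA1, hd'⟩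
  · exact Or.inl h3
  right
  rcases ext_down h h₁ h₂ (by omega) (by omega) hA1 with h3 | ⟨c, hc, hA2, hc'⟩
  · exact Or.inl fun i j q1 q2 q3 => h3 i j q1 q2 (by omega)
  right
  rcases ext_right h h₁ h₂ (by omega) (by omega) hA2 with h3 | ⟨b, hb, hA3, hb'⟩
  · exact Or.inl fun i j q1 q2 q3 => h3 i j q1 (by omega) (by omega)
  right
  rcases ext_left h h₁ h₂ (by omega) (by omega) hA3 with h3 | ⟨a, ha, hA4, ha'⟩
  · exact Or.inl fun i j q1 q2 q3 => h3 i j (by omega) (by omega) (by omega)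
  right
  refine ⟨a, b, c, d, by omega, by omega, exact_rect h h₁ h₂ hc₂ (by omega) (by omega) hA4
    (fun i q1 q2 he => ?_) (fun i q1 q2 he => ?_) (fun j q1 q2 => hb' j q1 q2)
    (fun j q1 q2 => ha' j q1 q2)⟩
  · refine hd' x le_rfl (by omega) ?_
    exact rowprop h h₁ h₂ (y := d) (y' := d + 1) (by norm_num)
      (fun i s1 s2 => hA4 i d s1 s2 (by omega) le_rfl) q1 q2 he x (by omega) (by omega)
  · refine hc' x le_rfl (by omega) ?_
    exact rowprop h h₁ h₂ (y := c) (y' := c - 1) (by norm_num)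
      (fun i s1 s2 => hA4 i c s1 s2 le_rfl (by omega)) q1 q2 he x (by omega) (by omega)

end Pool.Agent.W5h69.CR
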