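import Pool.Agent.W5h69.CR.Cube
import Pool.Agent.W5h69.CR.Rect

/-!
# Finite rectangles in the intersections of translates of an arbitrary flat
-/

set_option autoImplicit false

namespace Pool.Agent.W5h69.CR

open Set

variable {V : Type*} {Γ : SimpleGraph V} {G : Type*} [Group G] [MulAction G V] {K : Set V}

/-- Pigeonhole principle with multiplicities. -/
theorem pigeon {α : Type*} (D : ℕ) {S : Set α} (hS : S.Finite) : ∃ M : ℕ, ∀ φ : ℕ → α,
    (∀ i ≤ M, φ i ∈ S) → ∃ m : ℕ → ℕ, (∀ i j, i < j → j ≤ D → m i < m j) ∧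
      (∀ i ≤ D, m i ≤ M) ∧ ∀ i ≤ D, φ (m i) = φ (m 0) := by
  classical
  refine ⟨hS.toFinset.card * D, fun φ hφ => ?_⟩
  obtain ⟨y, -, hy⟩ := Finset.exists_lt_card_fiber_of_mul_lt_card_of_maps_to
    (s := Finset.range (hS.toFinset.card * D + 1)) (t := hS.toFinset) (f := φ) (n := D)
    (fun i hi => by
      rw [Finset.mem_range] at hi
      exact hS.mem_toFinset.2 (hφ i (by omega))) (by rw [Finset.card_range]; omega)
  set F := Finset.filter (fun x => φ x = y) (Finset.range (hS.toFinset.card * D + 1)) with hF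
  have hmem0 : ∀ i : Fin F.card, F.orderEmbOfFin rfl i ∈ F := fun i =>
    Finset.orderEmbOfFin_mem F rfl i
  have hmem1 : ∀ x ∈ F, x ≤ hS.toFinset.card * D ∧ φ x = y := fun x hx => by
    rw [hF, Finset.mem_filter, Finset.mem_range] at hx
    exact ⟨by omega, hx.2⟩
  have hmem := fun i => hmem1 _ (hmem0 i)
  refine ⟨fun i => if h : i < F.card then F.orderEmbOfFin rfl ⟨i, h⟩ else 0, ?_, ?_, ?_⟩
  · intro i j hij hj
    beta_reduce
    rw [dif_pos (show i < F.card by omega), dif_pos (show j < F.card by omega)]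
    exact (F.orderEmbOfFin rfl).lt_iff_lt.2 hij
  · intro i hi
    beta_reduce
    rw [dif_pos (show i < F.card by omega)]
    exact (hmem ⟨i, by omega⟩).1
  · intro i hi
    beta_reduce
    rw [dif_pos (show i < F.card by omega), dif_pos (show 0 < F.card by omega)]
    rw [(hmem ⟨i, by omega⟩).2, (hmem ⟨0, by omega⟩).2]

/-- If `g` carries a long enough piece of a double column of a flat to a parallel one of the same
flat, the walls being nested, then `G` contains `ℤ²`. -/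
theorem zfin' (hG : Geo Γ G K) (a : ℕ) : ∃ L : ℕ, ∀ f : ℤ × ℤ → V, IsFlat Γ f →
    ∀ (g : G) (x1 x2 y0 : ℤ), x1 < x2 → x2 - x1 ≤ a → Nested Γ f x1 x2 →
    (∀ t, y0 ≤ t → t ≤ y0 + L → g • f (x1, t) = f (x2, t) ∧ g • f (x1 + 1, t) = f (x2 + 1, t)) →
    ∃ φ : Multiplicative (ℤ × ℤ) →* G, Function.Injective φ := by
  classical
  obtain ⟨E, hE⟩ := hG.nested
  have hF := hG.move a
  set F := {u : G | ∃ v ∈ K, Γ.dist v (u • v) ≤ a} with hFdef
  have hB : (⋃ v ∈ K, {w | Γ.dist v w ≤ 1}).Finite := hG.fin.biUnion fun v _ => hG.ball 1 v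
  have hS := (hG.fin.prod (hB.prod hF))
  set S : Set (V × V × G) := K ×ˢ ((⋃ v ∈ K, {w | Γ.dist v w ≤ 1}) ×ˢ F) with hSdef
  obtain ⟨L, hL⟩ := pigeon E hS
  refine ⟨L, fun f hf g x1 x2 y0 hx hxa hnest hg => ?_⟩
  choose γ hγ using fun v : V => hG.cov v
  let D : ℕ → V × V × G := fun i =>
    (γ (f (x1, y0 + i)) • f (x1, y0 + i), γ (f (x1, y0 + i)) • f (x1, y0 + i + 1),
      γ (f (x1, y0 + i)) * g * (γ (f (x1, y0 + i)))⁻¹)
  obtain ⟨μ, hμ1, hμ2, hμ3⟩ := hL D (fun i hi => by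
      refine ⟨hγ _, Set.mem_biUnion (hγ (f (x1, y0 + i))) ?_, ⟨_, hγ (f (x1, y0 + i)), ?_⟩⟩
      · show Γ.dist _ _ ≤ 1
        rw [hG.dist, d1 (hf.up _ _)]
      · rw [mul_smul, mul_smul, inv_smul_smul, hG.dist, (hg _ (by omega) (by omega)).1]
        have := hf (x1, y0 + i) (x2, y0 + i)
        simp only [sub_self, abs_zero, add_zero] at this
        rw [abs_of_nonpos (by omega)] at this
        omega)
  obtain ⟨i', j', hij', hj'E, hne'⟩ := hE _ hf.swap (fun i => y0 + (μ i : ℤ)) (fun i j h1 h2 => by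
    have := hμ1 i j h1 h2
    omega)
  obtain ⟨i, hi⟩ : ∃ i, μ i' = i := ⟨_, rfl⟩
  obtain ⟨j, hj⟩ : ∃ j, μ j' = j := ⟨_, rfl⟩
  have hlt : i < j := by rw [← hi, ← hj]; exact hμ1 i' j' hij' hj'E
  have hjL : j ≤ L := by rw [← hj]; exact hμ2 j' hj'E
  have hij : D i = D j := by rw [← hi, ← hj, hμ3 i' (by omega), hμ3 j' hj'E]
  simp only [hi, hj] at hne'
  set p := γ (f (x1, y0 + i)) with hp
  set q := γ (f (x1, y0 + j)) with hq
  obtain ⟨e1, e2, e3⟩ : p • f (x1, y0 + i) = q • f (x1, y0 + j) ∧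
      p • f (x1, y0 + i + 1) = q • f (x1, y0 + j + 1) ∧ p * g * p⁻¹ = q * g * q⁻¹ := by
    simpa only [D, Prod.mk.injEq] using hij
  have k1 : (q⁻¹ * p) • f (x1, y0 + i) = f (x1, y0 + j) := by
    rw [mul_smul, e1, inv_smul_smul]
  have k2 : (q⁻¹ * p) • f (x1, y0 + i + 1) = f (x1, y0 + j + 1) := by
    rw [mul_smul, e2, inv_smul_smul]
  have k3 : g * (q⁻¹ * p) = (q⁻¹ * p) * g := by
    calc g * (q⁻¹ * p) = q⁻¹ * (q * g * q⁻¹) * p := by group
      _ = q⁻¹ * (p * g * p⁻¹) * p := by rw [e3]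
      _ = (q⁻¹ * p) * g := by group
  set k := q⁻¹ * p with hk
  obtain ⟨g1, g2⟩ := hg (y0 + i) (by omega) (by omega)
  obtain ⟨g3, g4⟩ := hg (y0 + i + 1) (by omega) (by omega)
  have hfs := hf.swap
  refine zcrit g k k3 (Rt Γ f x1 (y0 + i)) (Rt Γ (fun z => f (z.2, z.1)) (y0 + i) x1)
    (fun v hv => ?_) (f (x1, y0 + i + 1)) ?_ ?_ (fun v => ?_) (fun v hv => ?_)
    (f (x1 + 1, y0 + i)) (Rt_self hf le_rfl _) ?_
  · -- k maps the upper half-space into itself
    refine hne' x1 _ ?_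
    show Γ.dist (k • v) (f (x1, y0 + j + 1)) < Γ.dist (k • v) (f (x1, y0 + j))
    rw [← k1, ← k2, hG.dist, hG.dist]
    exact hv
  · exact Rt_self hfs le_rfl x1
  · intro h
    refine not_Rt hfs (x := y0 + i) (x' := y0 + j) (by omega) x1 ?_
    show Γ.dist (f (x1, y0 + i + 1)) (f (x1, y0 + j + 1)) <
      Γ.dist (f (x1, y0 + i + 1)) (f (x1, y0 + j))
    have h' : Γ.dist (k⁻¹ • f (x1, y0 + i + 1)) (f (x1, y0 + i + 1)) <
      Γ.dist (k⁻¹ • f (x1, y0 + i + 1)) (f (x1, y0 + i)) := h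
    rw [← hG.dist k, ← hG.dist k (k⁻¹ • _) (f (x1, y0 + i)), smul_inv_smul, k1, k2] at h'
    exact h'
  · rw [Rt_row hG.med hfs (y0 + i) x1 x2 (g • v)]
    show Γ.dist v (f (x1, y0 + i + 1)) < Γ.dist v (f (x1, y0 + i)) ↔
      Γ.dist (g • v) (f (x2, y0 + i + 1)) < Γ.dist (g • v) (f (x2, y0 + i))
    rw [← g1, ← g3, hG.dist, hG.dist]
  · refine hnest (y0 + i) _ ?_
    show Γ.dist (g • v) (f (x2 + 1, y0 + i)) < Γ.dist (g • v) (f (x2, y0 + i))
    rw [← g1, ← g2, hG.dist, hG.dist]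
    exact hv
  · intro h
    refine not_Rt hf hx (y0 + i) ?_
    show Γ.dist (f (x1 + 1, y0 + i)) (f (x2 + 1, y0 + i)) <
      Γ.dist (f (x1 + 1, y0 + i)) (f (x2, y0 + i))
    have h' : Γ.dist (g⁻¹ • f (x1 + 1, y0 + i)) (f (x1 + 1, y0 + i)) <
      Γ.dist (g⁻¹ • f (x1 + 1, y0 + i)) (f (x1, y0 + i)) := h
    rw [← hG.dist g, ← hG.dist g (g⁻¹ • _) (f (x1, y0 + i)), smul_inv_smul, g1, g2] at h'
    exact h'

theorem same_pattern' (hG : Geo Γ G K) {f : ℤ × ℤ → V} (hf : IsFlat Γ f) (n : ℕ) :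
    ∃ N : ℕ, ∀ X y : ℤ, ∃ x1 x2 : ℤ, X ≤ x1 ∧ x1 < x2 ∧ x2 ≤ X + N ∧ Nested Γ f x1 x2 ∧
      ∃ g : G, ∀ i j : ℤ, x1 ≤ i → i ≤ x1 + n → y ≤ j → j ≤ y + n →
        g • f (i, j) = f (i + (x2 - x1), j) := by
  classical
  obtain ⟨E, hE⟩ := hG.nested
  have hB : (⋃ v ∈ K, {w | Γ.dist v w ≤ 2 * n}).Finite :=
    hG.fin.biUnion fun v _ => hG.ball (2 * n) v
  set B : Set V := ⋃ v ∈ K, {w | Γ.dist v w ≤ 2 * n} with hBdef
  have hP : (Set.univ.pi fun _ : Fin (n + 1) × Fin (n + 1) => B).Finite :=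
    Set.Finite.pi fun _ => hB
  obtain ⟨N, hN⟩ := pigeon E hP
  refine ⟨N, fun X y => ?_⟩
  choose γ hγ using fun v : V => hG.cov v
  let D : ℕ → (Fin (n + 1) × Fin (n + 1) → V) := fun m ij =>
    γ (f (X + m, y)) • f (X + m + ij.1, y + ij.2)
  obtain ⟨μ, hμ1, hμ2, hμ3⟩ := hN D (fun m hm => by
      rintro ⟨i, j⟩ -
      refine Set.mem_biUnion (hγ (f (X + m, y))) ?_
      show Γ.dist _ _ ≤ 2 * n
      rw [hG.dist]
      have := hf (X + m, y) (X + m + i, y + j)
      simp only at this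
      rw [abs_of_nonpos (by omega), abs_of_nonpos (by omega)] at this
      have hi := i.2
      have hj := j.2
      show Γ.dist (f (X + m, y)) (f (X + m + i, y + j)) ≤ 2 * n
      omega)
  obtain ⟨i', j', hij', hj'E, hne'⟩ := hE _ hf (fun i => X + (μ i : ℤ)) (fun i j h1 h2 => by
    have := hμ1 i j h1 h2
    omega)
  obtain ⟨m, hm⟩ : ∃ i, μ i' = i := ⟨_, rfl⟩
  obtain ⟨m', hm'⟩ : ∃ j, μ j' = j := ⟨_, rfl⟩
  have hlt : m < m' := by rw [← hm, ← hm']; exact hμ1 i' j' hij' hj'E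
  have hmL : m' ≤ N := by rw [← hm']; exact hμ2 j' hj'E
  have he : D m = D m' := by rw [← hm, ← hm', hμ3 i' (by omega), hμ3 j' hj'E]
  simp only [hm, hm'] at hne'
  refine ⟨X + m, X + m', by omega, by omega, by omega, hne',
    (γ (f (X + m', y)))⁻¹ * γ (f (X + m, y)), fun i j q1 q2 q3 q4 => ?_⟩
  have h1 := congrFun he (⟨(i - (X + m)).toNat, by omega⟩, ⟨(j - y).toNat, by omega⟩)
  simp only [D] at h1
  rw [show X + (m : ℤ) + ((i - (X + m)).toNat : ℤ) = i by omega,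
    show y + ((j - y).toNat : ℤ) = j by omega,
    show X + (m' : ℤ) + ((i - (X + m)).toNat : ℤ) = i + (X + m' - (X + m)) by omega] at h1
  rw [mul_smul, h1, inv_smul_smul]

theorem iter_right (f : ℤ × ℤ → V) (g : G) (a X j : ℤ) (ha : 0 ≤ a)
    (h : ∀ i, X ≤ i → g • f (i, j) = f (i + a, j)) (m : ℕ) :
    ∀ i, X ≤ i → g ^ m • f (i, j) = f (i + m * a, j) := by
  induction m with
  | zero => intro i _; simp
  | succ m ih =>
    intro i hi
    rw [pow_succ', mul_smul, ih i hi, h _ (by nlinarith)]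
    congr 2
    push_cast
    ring

theorem iter_left (f : ℤ × ℤ → V) (g : G) (a X j : ℤ) (ha : 0 ≤ a)
    (h : ∀ i, i ≤ X → g • f (i, j) = f (i + a, j)) (m : ℕ) :
    ∀ i, i + m * a ≤ X → g ^ m • f (i, j) = f (i + m * a, j) := by
  induction m with
  | zero => intro i _; simp
  | succ m ih =>
    intro i hi
    push_cast at hi
    rw [pow_succ', mul_smul, ih i (by nlinarith), h _ (by nlinarith)]
    congr 2
    push_cast
    ring

theorem max_rect' (h : IsMedian Γ) {f₁ f₂ : ℤ × ℤ → V} (h₁ : IsFlat Γ f₁) (h₂ : IsFlat Γ f₂)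
    {x y n : ℤ} (hn : 0 < n) (hA : Agree f₁ f₂ x (x + n) y (y + n)) :
    (∀ i j, x ≤ i → i ≤ x + n → y ≤ j → f₁ (i, j) = f₂ (i, j)) ∨
    (∀ i j, x ≤ i → i ≤ x + n → j ≤ y + n → f₁ (i, j) = f₂ (i, j)) ∨
    (∀ i j, x ≤ i → y ≤ j → j ≤ y + n → f₁ (i, j) = f₂ (i, j)) ∨
    (∀ i j, i ≤ x + n → y ≤ j → j ≤ y + n → f₁ (i, j) = f₂ (i, j)) ∨
    ∃ p q r s : ℤ, n ≤ q - p ∧ n ≤ s - r ∧ MaximalAgreement f₁ f₂ p q r s := by
  rcases ext_up h h₁ h₂ (by omega) (by omega) hA with h3 | ⟨d, hd, hA1, hd'⟩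
  · exact Or.inl h3
  right
  rcases ext_down h h₁ h₂ (by omega) (by omega) hA1 with h3 | ⟨c, hc, hA2, hc'⟩
  · exact Or.inl fun i j q1 q2 q3 => h3 i j q1 q2 (by omega)
  right
  rcases ext_right h h₁ h₂ (by omega) (by omega) hA2 with h3 | ⟨b, hb, hA3, hb'⟩
  · exact Or.inl fun i j q1 q2 q3 => h3 i j q1 (by omega) (by omega)
  right
  rcases ext_left h h₁ h₂ (by omega) (by omega) hA3 with h3 | ⟨a, ha, hA4, ha'⟩
  · exact Or.inl fun i j q1 q2 q3 => h3 i j (by omega) (by omega) (by omega)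
  right
  refine ⟨a, b, c, d, by omega, by omega, hA4, fun i q1 q2 => ⟨fun he => ?_, fun he => ?_⟩,
    fun j q1 q2 => ⟨hb' j q1 q2, ha' j q1 q2⟩⟩
  · refine hd' x le_rfl (by omega) ?_
    exact rowprop h h₁ h₂ (y := d) (y' := d + 1) (by norm_num)
      (fun i s1 s2 => hA4 i d s1 s2 (by omega) le_rfl) q1 q2 he x (by omega) (by omega)
  · refine hc' x le_rfl (by omega) ?_
    exact rowprop h h₁ h₂ (y := c) (y' := c - 1) (by norm_num)
      (fun i s1 s2 => hA4 i c s1 s2 le_rfl (by omega)) q1 q2 he x (by omega) (by omega)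

/-- Either all rows of thickness `n` are eventually periodic on the right with the same period, or
there is `ℤ²`, or a finite rectangle of maximal agreement. -/
theorem rows' (hG : Geo Γ G K) {f : ℤ × ℤ → V} (hf : IsFlat Γ f) {n : ℕ}
    (hn : 0 < n) (hno : ¬ ∃ φ : Multiplicative (ℤ × ℤ) →* G, Function.Injective φ)
    (hN : ¬ ∃ (g : G) (a p q r s : ℤ), 0 < a ∧ n ≤ q - p ∧ n ≤ s - r ∧
      MaximalAgreement (fun z => g • f z) (fun z => f (z + (a, 0))) p q r s) :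
    ∃ Q : ℕ, 0 < Q ∧ ∀ y : ℤ, ∃ (X : ℤ) (g : G), ∀ i j, X ≤ i → y ≤ j → j ≤ y + n →
      g • f (i, j) = f (i + Q, j) := by
  classical
  obtain ⟨N, hpat⟩ := same_pattern' hG hf n
  obtain ⟨L, hL⟩ := zfin' hG N
  refine ⟨N.factorial, Nat.factorial_pos N, fun y => ?_⟩
  -- the four cases reduce to two
  have key : ∀ X : ℤ, ∃ (B a : ℤ) (g : G), X ≤ B ∧ 0 < a ∧ a ≤ N ∧
      ((∀ i j, B ≤ i → y ≤ j → j ≤ y + n → g • f (i, j) = f (i + a, j)) ∨
      (∀ i j, i ≤ B → y ≤ j → j ≤ y + n → g • f (i, j) = f (i + a, j))) := by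
    intro X
    obtain ⟨x1, x2, h1, h2, h3, hnest, g, hg⟩ := hpat X y
    have hgf : IsFlat Γ (fun z => g • f z) := fun z w => by rw [hG.dist]; exact hf z w
    rcases max_rect' hG.med hgf (hf.add (x2 - x1, 0)) (x := x1) (y := y)
      (n := n) (by omega) (fun i j q1 q2 q3 q4 => by
        show g • f (i, j) = f ((i, j) + (x2 - x1, 0))
        rw [hg i j q1 q2 q3 q4]
        simp) with h | h | h | h | ⟨p, q, r, s, e1, e2, h⟩
    · exfalso
      refine hno (hL f hf g x1 x2 y h2 (by omega) hnest fun t t1 _ => ⟨?_, ?_⟩)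
      · have := h x1 t le_rfl (by omega) t1
        simpa using this
      · have := h (x1 + 1) t (by omega) (by omega) t1
        rw [this]
        simp only [Prod.mk_add_mk, add_zero]
        congr 2
        ring
    · exfalso
      refine hno (hL f hf g x1 x2 (y + n - L) h2 (by omega) hnest fun t _ t2 => ⟨?_, ?_⟩)
      · have := h x1 t le_rfl (by omega) (by omega)
        simpa using this
      · have := h (x1 + 1) t (by omega) (by omega) (by omega)
        rw [this]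
        simp only [Prod.mk_add_mk, add_zero]
        congr 2
        ring
    · refine ⟨x1, x2 - x1, g, h1, by omega, by omega, Or.inl fun i j q1 q2 q3 => ?_⟩
      have := h i j q1 q2 q3
      simpa using this
    · refine ⟨x1 + n, x2 - x1, g, by omega, by omega, by omega, Or.inr fun i j q1 q2 q3 => ?_⟩
      have := h i j q1 q2 q3
      simpa using this
    · exact absurd ⟨g, x2 - x1, p, q, r, s, by omega, e1, e2, h⟩ hN
  by_cases hright : ∃ (X a : ℤ) (g : G), 0 < a ∧ a ≤ N ∧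
      ∀ i j, X ≤ i → y ≤ j → j ≤ y + n → g • f (i, j) = f (i + a, j)
  · obtain ⟨X, a, g, ha, haN, h⟩ := hright
    obtain ⟨m, hm⟩ : a.toNat ∣ N.factorial := Nat.dvd_factorial (by omega) (by omega)
    refine ⟨X, g ^ m, fun i j q1 q2 q3 => ?_⟩
    rw [iter_right f g a X j ha.le (fun i hi => h i j hi q2 q3) m i q1, hm]
    push_cast
    rw [Int.toNat_of_nonneg ha.le, mul_comm]
  · -- periodic on the left of every point
    have hleft : ∀ m : ℕ, ∃ g : G, ∀ i j : ℤ, i ≤ m → y ≤ j → j ≤ y + n →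
        g • f (i, j) = f (i + N.factorial, j) := by
      intro m
      obtain ⟨B, a, g, h1, ha, haN, h | h⟩ := key (m + N.factorial)
      · exact absurd ⟨B, a, g, ha, haN, h⟩ hright
      · obtain ⟨e, he⟩ : a.toNat ∣ N.factorial := Nat.dvd_factorial (by omega) (by omega)
        have he' : (e : ℤ) * a = (N.factorial : ℤ) := by
          rw [he]
          push_cast
          rw [Int.toNat_of_nonneg ha.le, mul_comm]
        refine ⟨g ^ e, fun i j q1 q2 q3 => ?_⟩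
        rw [iter_left f g a B j ha.le (fun i hi => h i j hi q2 q3) e i (by rw [he']; omega), he']
    choose g hg using hleft
    have hfin := hG.fin1 (f (0, y)) (f (0 + N.factorial, y))
    have hmem : ∀ m : ℕ, g m ∈ {u : G | u • f (0, y) = f (0 + N.factorial, y)} := fun m =>
      hg m 0 y (by omega) le_rfl (by omega)
    have := hfin.to_subtype
    obtain ⟨u, hu⟩ := Finite.exists_infinite_fiber
      (fun m : ℕ => (⟨g m, hmem m⟩ : {u : G | u • f (0, y) = f (0 + N.factorial, y)}))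
    refine ⟨0, u.1, fun i j _ q2 q3 => ?_⟩
    obtain ⟨m, hm, hm2⟩ := (Set.infinite_coe_iff.1 hu).exists_gt i.toNat
    have hgu : g m = u.1 := congrArg Subtype.val (show (⟨g m, hmem m⟩ :
      {u : G | u • f (0, y) = f (0 + N.factorial, y)}) = u from hm)
    rw [← hgu]
    exact hg m i j (by omega) q2 q3

/-- Main theorem: without `ℤ²` there are finite rectangles of maximal agreement. -/
theorem main' (hG : Geo Γ G K) {f : ℤ × ℤ → V} (hf : IsFlat Γ f) {n : ℕ}
    (hn : 0 < n) (hno : ¬ ∃ φ : Multiplicative (ℤ × ℤ) →* G, Function.Injective φ) :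
    ∃ (g : G) (a p q r s : ℤ), 0 < a ∧ n ≤ q - p ∧ n ≤ s - r ∧
      MaximalAgreement (fun z => g • f z) (fun z => f (z + (a, 0))) p q r s := by
  by_contra hN
  obtain ⟨Q, hQ, hrow⟩ := rows' hG hf hn hno hN
  choose X g hg using hrow
  obtain ⟨K0, hK0, hpow⟩ := pow_eq hG
  obtain ⟨E, hE⟩ := hG.nested
  have hA : ∀ m : ℕ, g m ^ K0 = g 0 ^ K0 := by
    intro m
    induction m with
    | zero => rfl
    | succ m ih =>
      rw [← ih]
      refine hpow _ _ (fun t => f (t, m + 1)) (max (X m) (X (m + 1))) Q (by omega)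
        fun t ht => ⟨?_, ?_⟩
      · push_cast
        exact hg (m + 1) t (m + 1) (le_trans (le_max_right _ _) ht) le_rfl (by omega)
      · exact hg m t (m + 1) (le_trans (le_max_left _ _) ht) (by omega) (by omega)
  obtain ⟨L, hL⟩ := zfin' hG (E * (K0 * Q))
  obtain ⟨B, hB⟩ : ∃ B : ℤ, ∀ m : ℕ, m ≤ L → X m ≤ B := by
    have : ∀ L : ℕ, ∃ B : ℤ, ∀ m : ℕ, m ≤ L → X m ≤ B := by
      intro L
      induction L with
      | zero => exact ⟨X 0, fun m hm => by rw [Nat.le_zero.1 hm]; rfl⟩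
      | succ L ih =>
        obtain ⟨B, hB⟩ := ih
        refine ⟨max B (X (L + 1 : ℕ)), fun m hm => ?_⟩
        rcases Nat.lt_or_ge m (L + 1) with h | h
        · exact le_trans (hB m (by omega)) (le_max_left _ _)
        · rw [show m = L + 1 by omega]
          exact le_max_right _ _
    exact this L
  have hP : (0 : ℤ) < (K0 : ℤ) * Q := by positivity
  -- two nested columns at a distance which is a multiple of the period
  obtain ⟨i, j, hij, hjE, hnest⟩ := hE f hf (fun i => B + i * (K0 * Q)) (fun i j h _ => by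
    have : (i : ℤ) * (K0 * Q) < j * (K0 * Q) := mul_lt_mul_of_pos_right (by exact_mod_cast h) hP
    omega)
  have hij1 : (i : ℤ) * (K0 * Q) < j * (K0 * Q) :=
    mul_lt_mul_of_pos_right (by exact_mod_cast hij) hP
  have hij2 : (j : ℤ) * (K0 * Q) ≤ E * (K0 * Q) :=
    mul_le_mul_of_nonneg_right (by exact_mod_cast hjE) hP.le
  have hi0 : 0 ≤ (i : ℤ) * (K0 * Q) := by positivity
  have hcast : (((j - i : ℕ) : ℕ) : ℤ) = (j : ℤ) - i := by
    rw [Nat.cast_sub hij.le]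
  refine hno (hL f hf ((g 0 ^ K0) ^ (j - i)) (B + i * (K0 * Q)) (B + j * (K0 * Q)) 0 (by omega)
    ?_ hnest fun t t0 t1 => ?_)
  · push_cast
    omega
  · obtain ⟨m, rfl⟩ := Int.eq_ofNat_of_zero_le t0
    have hm : m ≤ L := by omega
    rw [← hA m]
    have h1 : ∀ i, X m ≤ i → g m • f (i, (m : ℤ)) = f (i + Q, (m : ℤ)) := fun i hi =>
      hg m i m hi le_rfl (by omega)
    have h2 := iter_right f (g m) Q (X m) m (by omega) h1 K0
    have h3 := iter_right f (g m ^ K0) (K0 * Q) (X m) m hP.le h2 (j - i)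
    have hBm := hB m hm
    refine ⟨?_, ?_⟩
    · rw [h3 _ (by omega), hcast]
      congr 2
      ring
    · rw [h3 _ (by omega), hcast]
      congr 2
      ring

/-- Without `ℤ²` there are finite rectangles of maximal agreement; for convex flats they are exactly
the intersections. -/
theorem final (hG : Geo Γ G K) {f : ℤ × ℤ → V} (hf : IsFlat Γ f) (n : ℕ)
    (hno : ¬ ∃ φ : Multiplicative (ℤ × ℤ) →* G, Function.Injective φ) :
    ∃ (g : G) (a p q r s : ℤ), 0 < a ∧ n ≤ q - p ∧ n ≤ s - r ∧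
      MaximalAgreement (fun z => g • f z) (fun z => f (z + (a, 0))) p q r s ∧
      (ConvexImage Γ f ∨ ¬ HasCube Γ → ∀ z w : ℤ × ℤ, g • f z = f w ↔
        w = z + (a, 0) ∧ p ≤ z.1 ∧ z.1 ≤ q ∧ r ≤ z.2 ∧ z.2 ≤ s) := by
  obtain ⟨g, a, p, q, r, s, ha, h1, h2, h3⟩ := main' hG hf (n := n + 1) (by omega) hno
  refine ⟨g, a, p, q, r, s, ha, by push_cast at h1; omega, by push_cast at h2; omega, h3,
    fun hc z w => ?_⟩
  have hc' : ConvexImage Γ f := hc.elim id fun h => convex_of_noCube hG.med h hf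
  have hgf : IsFlat Γ (fun z => g • f z) := fun z w => by rw [hG.dist]; exact hf z w
  push_cast at h1 h2
  have := exact_rect hG.med hgf (hf.add (a, 0)) (hc'.add (a, 0)) (a := p) (b := q) (c := r)
    (d := s) (by omega) (by omega) h3.1 (fun x q1 q2 => (h3.2.1 x q1 q2).1)
    (fun x q1 q2 => (h3.2.1 x q1 q2).2) (fun y q1 q2 => (h3.2.2 y q1 q2).1)
    (fun y q1 q2 => (h3.2.2 y q1 q2).2) z (w - (a, 0))
  simp only [sub_add_cancel] at this
  rw [this, sub_eq_iff_eq_add]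

end Pool.Agent.W5h69.CR
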