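import Pool.Agent.W5h69.CR.Graph

/-!
# Actions on median graphs: commuting elements
-/

set_option autoImplicit false

namespace Pool.Agent.W5h69.CR

open Set

/-- `G` acts on the locally finite median graph `Γ` by automorphisms, with finite stabilisers, and
the finite set `K` meets every orbit. -/
structure Geo {V : Type*} (Γ : SimpleGraph V) (G : Type*) [Group G] [MulAction G V] (K : Set V) :
    Prop where
  med : IsMedian Γ
  loc : ∀ v, (Γ.neighborSet v).Finite
  adj : ∀ (g : G) (v w : V), Γ.Adj v w → Γ.Adj (g • v) (g • w)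
  stab : ∀ v : V, {g : G | g • v = v}.Finite
  fin : K.Finite
  cov : ∀ v : V, ∃ g : G, g • v ∈ K

variable {V : Type*} {Γ : SimpleGraph V} {G : Type*} [Group G] [MulAction G V] {K : Set V}

theorem Geo.dist (hG : Geo Γ G K) (g : G) (v w : V) : Γ.dist (g • v) (g • w) = Γ.dist v w := by
  have key : ∀ (g : G) (v w : V), Γ.dist (g • v) (g • w) ≤ Γ.dist v w := by
    intro g v w
    obtain ⟨p, hp⟩ := hG.med.1.exists_walk_length_eq_dist v w
    let φ : Γ →g Γ := ⟨fun v => g • v, fun {a b} hab => hG.adj g a b hab⟩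
    have := SimpleGraph.dist_le (p.map φ)
    rwa [SimpleGraph.Walk.length_map, hp] at this
  refine le_antisymm (key g v w) ?_
  have := key g⁻¹ (g • v) (g • w)
  rwa [inv_smul_smul, inv_smul_smul] at this

theorem Geo.ball (hG : Geo Γ G K) (r : ℕ) : ∀ v, {w | Γ.dist v w ≤ r}.Finite := by
  induction r with
  | zero =>
    intro v
    refine (Set.finite_singleton v).subset fun w hw => ?_
    exact (hG.med.1.dist_eq_zero_iff.1 (Nat.le_zero.1 hw)).symm
  | succ r ih =>
    intro v
    refine (((hG.loc v).biUnion fun u _ => ih u).union (Set.finite_singleton v)).subset ?_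
    intro w hw
    obtain ⟨p, hp⟩ := hG.med.1.exists_walk_length_eq_dist v w
    cases p with
    | nil => exact Or.inr rfl
    | cons hadj q =>
      left
      refine Set.mem_biUnion (show _ ∈ Γ.neighborSet v from hadj) ?_
      rw [SimpleGraph.Walk.length_cons] at hp
      have h1 := SimpleGraph.dist_le q
      have h2 : Γ.dist v w ≤ r + 1 := hw
      show Γ.dist _ w ≤ r
      omega

theorem Geo.fin1 (hG : Geo Γ G K) (v w : V) : {u : G | u • v = w}.Finite := by
  rcases Set.eq_empty_or_nonempty {u : G | u • v = w} with h | ⟨u0, h0⟩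
  · rw [h]; exact Set.finite_empty
  · refine ((hG.stab v).image fun s => u0 * s).subset fun u hu => ⟨u0⁻¹ * u, ?_, by group⟩
    show (u0⁻¹ * u) • v = v
    rw [mul_smul, show u • v = w from hu, ← show u0 • v = w from h0, inv_smul_smul]

theorem Geo.move (hG : Geo Γ G K) (r : ℕ) : {u : G | ∃ v ∈ K, Γ.dist v (u • v) ≤ r}.Finite := by
  refine (hG.fin.biUnion fun v _ => (hG.ball r v).biUnion fun w _ => hG.fin1 v w).subset ?_
  rintro u ⟨v, hv, hd⟩
  exact Set.mem_biUnion hv (Set.mem_biUnion (show u • v ∈ {w | Γ.dist v w ≤ r} from hd) rfl)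

/-- A criterion for two commuting elements to generate `ℤ²`. -/
theorem zcrit (g k : G) (hgk : g * k = k * g) (S T : V → Prop)
    (k1 : ∀ v, T v → T (k • v)) (v0 : V) (hv0 : T v0) (hv0' : ¬ T (k⁻¹ • v0))
    (g2 : ∀ v, T v ↔ T (g • v)) (g1 : ∀ v, S v → S (g • v)) (w0 : V) (hw0 : S w0)
    (hw0' : ¬ S (g⁻¹ • w0)) :
    ∃ φ : Multiplicative (ℤ × ℤ) →* G, Function.Injective φ := by
  have hc : Commute g k := hgk
  let φ : Multiplicative (ℤ × ℤ) →* G :=
    { toFun := fun m => g ^ m.toAdd.1 * k ^ m.toAdd.2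
      map_one' := by simp
      map_mul' := fun m n => by
        simp only [toAdd_mul, Prod.fst_add, Prod.snd_add, zpow_add]
        have h1 : g ^ n.toAdd.1 * k ^ m.toAdd.2 = k ^ m.toAdd.2 * g ^ n.toAdd.1 :=
          (hc.zpow_zpow _ _)
        rw [mul_assoc, mul_assoc, ← mul_assoc (g ^ n.toAdd.1), h1, mul_assoc] }
  have c1 : ∀ n : ℕ, ¬ T ((k⁻¹) ^ (n + 1) • v0) := by
    intro n
    induction n with
    | zero => simpa using hv0'
    | succ n ih =>
      intro h
      apply ih
      have := k1 _ h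
      rwa [pow_succ' _ (n + 1), mul_smul, smul_inv_smul] at this
  have c2 : ∀ n : ℕ, ¬ S ((g⁻¹) ^ (n + 1) • w0) := by
    intro n
    induction n with
    | zero => simpa using hw0'
    | succ n ih =>
      intro h
      apply ih
      have := g1 _ h
      rwa [pow_succ' _ (n + 1), mul_smul, smul_inv_smul] at this
  have c3 : ∀ z : ℤ, T (g ^ z • v0) := by
    intro z
    have := const_of_succ (P := fun z : ℤ => T (g ^ z • v0)) (fun z => by
      show T (g ^ z • v0) ↔ T (g ^ (z + 1) • v0)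
      rw [zpow_add_one, (Commute.refl g).zpow_left z |>.eq, mul_smul]
      exact g2 _) 0 z
    rw [← this]
    simpa using hv0
  refine ⟨φ, (injective_iff_map_eq_one φ).2 fun m hm => ?_⟩
  have hm' : g ^ m.toAdd.1 * k ^ m.toAdd.2 = 1 := hm
  have hb : m.toAdd.2 = 0 := by
    rcases lt_trichotomy m.toAdd.2 0 with h | h | h
    · exfalso
      obtain ⟨n, hn⟩ := Int.eq_ofNat_of_zero_le (show 0 ≤ -m.toAdd.2 - 1 by omega)
      have e : (k⁻¹) ^ (n + 1) = g ^ (-m.toAdd.1) := by
        have h1 : (k⁻¹) ^ (n + 1) = k ^ m.toAdd.2 := by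
          rw [show m.toAdd.2 = -((n + 1 : ℕ) : ℤ) by push_cast; omega, zpow_neg, zpow_natCast,
            inv_pow]
        rw [h1, zpow_neg]
        exact eq_inv_of_mul_eq_one_right hm'
      exact c1 n (e ▸ c3 _)
    · exact h
    · exfalso
      obtain ⟨n, hn⟩ := Int.eq_ofNat_of_zero_le (show 0 ≤ m.toAdd.2 - 1 by omega)
      have e : (k⁻¹) ^ (n + 1) = g ^ (m.toAdd.1) := by
        have h1 : k ^ m.toAdd.2 = k ^ (n + 1) := by
          rw [show m.toAdd.2 = ((n + 1 : ℕ) : ℤ) by push_cast; omega, zpow_natCast]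
        rw [h1] at hm'
        rw [inv_pow]
        exact (eq_inv_of_mul_eq_one_left hm').symm
      exact c1 n (e ▸ c3 _)
  rw [hb, zpow_zero, mul_one] at hm'
  have ha : m.toAdd.1 = 0 := by
    rcases lt_trichotomy m.toAdd.1 0 with h | h | h
    · exfalso
      obtain ⟨n, hn⟩ := Int.eq_ofNat_of_zero_le (show 0 ≤ -m.toAdd.1 - 1 by omega)
      have e : (g⁻¹) ^ (n + 1) = 1 := by
        rw [← hm', show m.toAdd.1 = -((n + 1 : ℕ) : ℤ) by push_cast; omega, zpow_neg,
          zpow_natCast, inv_pow]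
      refine c2 n ?_
      rw [e, one_smul]
      exact hw0
    · exact h
    · exfalso
      obtain ⟨n, hn⟩ := Int.eq_ofNat_of_zero_le (show 0 ≤ m.toAdd.1 - 1 by omega)
      have e : (g⁻¹) ^ (n + 1) = 1 := by
        rw [show m.toAdd.1 = ((n + 1 : ℕ) : ℤ) by push_cast; omega, zpow_natCast] at hm'
        rw [inv_pow, hm', inv_one]
      refine c2 n ?_
      rw [e, one_smul]
      exact hw0
  exact Multiplicative.toAdd.injective (Prod.ext ha hb)

/-- Elements with a common half-line of translation have a common power. -/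
theorem pow_eq (hG : Geo Γ G K) : ∃ K0 : ℕ, 0 < K0 ∧ ∀ (a b : G) (c : ℤ → V) (T Q : ℤ), 0 ≤ Q →
    (∀ t, T ≤ t → a • c t = c (t + Q) ∧ b • c t = c (t + Q)) → a ^ K0 = b ^ K0 := by
  classical
  have hF := hG.move 0
  set F := {u : G | ∃ v ∈ K, Γ.dist v (u • v) ≤ 0} with hFdef
  set s := hF.toFinset.card with hs
  refine ⟨s.factorial, Nat.factorial_pos s, fun a b c T Q hQ hab => ?_⟩
  have it : ∀ (u : G), (∀ t, T ≤ t → u • c t = c (t + Q)) → ∀ (m : ℕ) (t : ℤ), T ≤ t →
      u ^ m • c t = c (t + m * Q) := by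
    intro u hu m
    induction m with
    | zero => intro t _; simp
    | succ m ih =>
      intro t ht
      rw [pow_succ', mul_smul, ih t ht, hu _ (by nlinarith)]
      congr 1
      push_cast
      ring
  obtain ⟨γ, hγ⟩ := hG.cov (c (T + s * Q))
  obtain ⟨m, hm, m', hm', hne, he⟩ := Finset.exists_ne_map_eq_of_card_lt_of_maps_to
    (s := Finset.range (s + 1)) (t := hF.toFinset)
    (f := fun m : ℕ => γ * (a ^ m * (b ^ m)⁻¹) * γ⁻¹) (by rw [Finset.card_range]; omega) (by
      intro m hm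
      rw [Finset.mem_coe, Finset.mem_range] at hm
      rw [Finset.mem_coe, Set.Finite.mem_toFinset]
      refine ⟨_, hγ, ?_⟩
      have hms0 : (m : ℤ) ≤ s := by omega
      have hms : (m : ℤ) * Q ≤ s * Q := mul_le_mul_of_nonneg_right hms0 hQ
      have e1 := it a (fun t ht => (hab t ht).1) m (T + s * Q - m * Q) (by linarith)
      have e2 := it b (fun t ht => (hab t ht).2) m (T + s * Q - m * Q) (by linarith)
      rw [show T + s * Q - m * Q + m * Q = T + s * Q by ring] at e1 e2
      rw [mul_smul, inv_smul_smul, mul_smul, mul_smul]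
      rw [show (b ^ m)⁻¹ • c (T + s * Q) = c (T + s * Q - m * Q) by
        rw [← e2, inv_smul_smul], e1, SimpleGraph.dist_self])
  rw [Finset.mem_range] at hm hm'
  have main : ∀ m m' : ℕ, m < m' → m' < s + 1 → a ^ m * (b ^ m)⁻¹ = a ^ m' * (b ^ m')⁻¹ →
      a ^ s.factorial = b ^ s.factorial := by
    intro m m' hlt hm' he
    obtain ⟨d, rfl⟩ := Nat.exists_eq_add_of_lt hlt
    rw [add_assoc] at he hm'
    set d' := d + 1 with hd'
    have h1 : a ^ d' = b ^ d' := by
      rw [pow_add a, mul_assoc, mul_right_inj] at he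
      rw [eq_mul_inv_iff_mul_eq, pow_add, ← mul_assoc, inv_mul_cancel, one_mul] at he
      exact he.symm
    have h2 : d' ∣ s.factorial := Nat.dvd_factorial (by omega) (by omega)
    obtain ⟨e, he⟩ := h2
    rw [he, pow_mul, pow_mul, h1]
  have he' : a ^ m * (b ^ m)⁻¹ = a ^ m' * (b ^ m')⁻¹ := by
    simpa using he
  rcases lt_or_gt_of_ne hne with h | h
  · exact main m m' h hm' he'
  · exact main m' m h hm he'.symm

end Pool.Agent.W5h69.CR
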