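import Pool.Agent.W5h69.CR.Dim

/-!
# Flats of square complexes are convex
-/

set_option autoImplicit false

namespace Pool.Agent.W5h69.CR

variable {V : Type*} {Γ : SimpleGraph V} {f : ℤ × ℤ → V}

theorem dist_flat (hf : IsFlat Γ f) {z w : ℤ × ℤ} {k : ℕ}
    (h : |z.1 - w.1| + |z.2 - w.2| = k) : Γ.dist (f z) (f w) = k := by
  have := hf z w
  rw [h] at this
  exact_mod_cast this

/-- Without cubes, the middle of two vertices at distance two in a row is unique. -/
theorem mid_of_noCube (h : IsMedian Γ) (hno : ¬ HasCube Γ) (hf : IsFlat Γ f) (x y : ℤ) (m : V)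
    (h1 : Γ.Adj (f (x, y)) m) (h2 : Γ.Adj (f (x + 1 + 1, y)) m) : m = f (x + 1, y) := by
  by_contra hmu
  have au := hf.right x y
  have uc := hf.right (x + 1) y
  have aa := hf.up x y
  have uu := hf.up (x + 1) y
  have cc := hf.up (x + 1 + 1) y
  have au' := hf.right x (y + 1)
  have uc' := hf.right (x + 1) (y + 1)
  have dac : Γ.dist (f (x, y + 1)) (f (x + 1 + 1, y + 1)) = 2 := dist_flat hf (by
    simp only [sub_self, abs_zero, add_zero]
    rw [show x - (x + 1 + 1) = -2 by ring]; norm_num)
  have da'c : Γ.dist (f (x, y + 1)) (f (x + 1 + 1, y)) = 3 := dist_flat hf (by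
    simp only
    rw [show x - (x + 1 + 1) = -2 by ring, show y + 1 - y = 1 by ring]; norm_num)
  have dac' : Γ.dist (f (x, y)) (f (x + 1 + 1, y + 1)) = 3 := dist_flat hf (by
    simp only
    rw [show x - (x + 1 + 1) = -2 by ring, show y - (y + 1) = -1 by ring]; norm_num)
  have dau' : Γ.dist (f (x, y)) (f (x + 1, y + 1)) = 2 := dist_flat hf (by
    simp only
    rw [show x - (x + 1) = -1 by ring, show y - (y + 1) = -1 by ring]; norm_num)
  have dua' : Γ.dist (f (x + 1, y)) (f (x, y + 1)) = 2 := dist_flat hf (by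
    simp only
    rw [show x + 1 - x = 1 by ring, show y - (y + 1) = -1 by ring]; norm_num)
  -- `m` is none of the upper vertices
  have n1 : m ≠ f (x, y + 1) := by
    rintro rfl
    have := d1 h2.symm
    omega
  have n2 : m ≠ f (x + 1 + 1, y + 1) := by
    rintro rfl
    have := d1 h1
    omega
  have n3 : m ≠ f (x + 1, y + 1) := by
    rintro rfl
    have := d1 h1
    omega
  obtain ⟨m', ⟨e1, e2, e3⟩, -⟩ := h.2 m (f (x, y + 1)) (f (x + 1 + 1, y + 1))
  have e4 := d2 h h1 aa n1
  have e5 := d2 h h2 cc n2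
  have e6 : Γ.dist m' (f (x, y + 1)) = Γ.dist (f (x, y + 1)) m' := SimpleGraph.dist_comm
  have b1 : Γ.Adj m m' := SimpleGraph.dist_eq_one_iff_adj.1 (by omega)
  have b2 : Γ.Adj (f (x, y + 1)) m' := SimpleGraph.dist_eq_one_iff_adj.1 (by omega)
  have b3 : Γ.Adj m' (f (x + 1 + 1, y + 1)) := SimpleGraph.dist_eq_one_iff_adj.1 (by omega)
  have n4 : m' ≠ f (x + 1, y + 1) := by
    rintro rfl
    refine hmu (k23 h (u := m) (w := f (x + 1, y)) h1.symm h2.symm b1 au.symm uc uu ?_ ?_ ?_)
    · intro e
      have := hf.inj e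
      simp only [Prod.mk.injEq, and_true] at this
      omega
    · intro e
      have := hf.inj e
      simp only [Prod.mk.injEq] at this
      omega
    · intro e
      have := hf.inj e
      simp only [Prod.mk.injEq] at this
      omega
  have n5 : m' ≠ f (x, y) := by
    rintro rfl
    have := d1 b3
    omega
  have n6 : m' ≠ f (x + 1 + 1, y) := by
    rintro rfl
    have := d1 b2
    omega
  have n7 : m' ≠ f (x + 1, y) := by
    rintro rfl
    have := d1 b2.symm
    omega
  apply hno
  let c : Bool × Bool × Bool → V := fun t =>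
    if t.2.2 then
      if t.1 then (if t.2.1 then m' else f (x, y + 1))
      else (if t.2.1 then f (x + 1 + 1, y + 1) else f (x + 1, y + 1))
    else
      if t.1 then (if t.2.1 then m else f (x, y))
      else (if t.2.1 then f (x + 1 + 1, y) else f (x + 1, y))
  have hfi : ∀ {z w : ℤ × ℤ}, f z = f w → z = w := fun e => hf.inj e
  have ne : ∀ {z w : ℤ × ℤ}, z ≠ w → f z ≠ f w := fun h e => h (hf.inj e)
  refine ⟨c, ?_, ?_, ?_, ?_⟩
  · have k1 : m ≠ f (x, y) := h1.ne'
    have k2 : m ≠ f (x + 1 + 1, y) := h2.ne'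
    have k3 : m' ≠ f (x, y + 1) := b2.ne'
    have k4 : m' ≠ f (x + 1 + 1, y + 1) := b3.ne
    have k5 : m ≠ m' := b1.ne
    have l1 : f (x, y) ≠ f (x + 1, y) := au.ne
    have l2 : f (x + 1, y) ≠ f (x + 1 + 1, y) := uc.ne
    have l3 : f (x, y) ≠ f (x + 1 + 1, y) := ne (by simp only [ne_eq, Prod.mk.injEq]; omega)
    have l4 : f (x, y + 1) ≠ f (x + 1, y + 1) := au'.ne
    have l5 : f (x + 1, y + 1) ≠ f (x + 1 + 1, y + 1) := uc'.ne
    have l6 : f (x, y + 1) ≠ f (x + 1 + 1, y + 1) :=
      ne (by simp only [ne_eq, Prod.mk.injEq]; omega)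
    have l7 : ∀ i j : ℤ, f (i, y) ≠ f (j, y + 1) := fun i j =>
      ne (by simp only [ne_eq, Prod.mk.injEq]; omega)
    rintro ⟨i, j, k⟩ ⟨i', j', k'⟩ e
    cases i <;> cases j <;> cases k <;> cases i' <;> cases j' <;> cases k' <;>
      simp only [c, Bool.false_eq_true, if_true, if_false] at e <;>
      first
        | rfl
        | exact absurd e k1 | exact absurd e k1.symm | exact absurd e k2 | exact absurd e k2.symm
        | exact absurd e k3 | exact absurd e k3.symm | exact absurd e k4 | exact absurd e k4.symm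
        | exact absurd e k5 | exact absurd e k5.symm
        | exact absurd e l1 | exact absurd e l1.symm | exact absurd e l2 | exact absurd e l2.symm
        | exact absurd e l3 | exact absurd e l3.symm | exact absurd e l4 | exact absurd e l4.symm
        | exact absurd e l5 | exact absurd e l5.symm | exact absurd e l6 | exact absurd e l6.symm
        | exact absurd e (l7 _ _) | exact absurd e (l7 _ _).symm
        | exact absurd e n1 | exact absurd e n1.symm | exact absurd e n2 | exact absurd e n2.symm
        | exact absurd e n3 | exact absurd e n3.symm | exact absurd e n4 | exact absurd e n4.symm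
        | exact absurd e n5 | exact absurd e n5.symm | exact absurd e n6 | exact absurd e n6.symm
        | exact absurd e n7 | exact absurd e n7.symm | exact absurd e hmu
        | exact absurd e (Ne.symm hmu)
  · intro j k
    cases j <;> cases k <;> simp only [c, Bool.false_eq_true, if_true, if_false]
    · exact au.symm
    · exact au'.symm
    · exact h2
    · exact b3.symm
  · intro i k
    cases i <;> cases k <;> simp only [c, Bool.false_eq_true, if_true, if_false]
    · exact uc
    · exact uc'
    · exact h1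
    · exact b2
  · intro i j
    cases i <;> cases j <;> simp only [c, Bool.false_eq_true, if_true, if_false]
    · exact uu
    · exact cc
    · exact aa
    · exact b1

/-- A flat such that the middles are unique is convex. -/
theorem convex_of_mid (h : IsMedian Γ) (hf : IsFlat Γ f)
    (hr : ∀ (x y : ℤ) (m : V), Γ.Adj (f (x, y)) m → Γ.Adj (f (x + 1 + 1, y)) m → m = f (x + 1, y))
    (hu : ∀ (x y : ℤ) (m : V), Γ.Adj (f (x, y)) m → Γ.Adj (f (x, y + 1 + 1)) m →
      m = f (x, y + 1)) : ConvexImage Γ f := by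
  -- the local statement
  have loc : ∀ (z p : ℤ × ℤ) (v : V), Γ.dist (f z) (f p) = 2 → Γ.Adj (f z) v → Γ.Adj (f p) v →
      v ∈ Set.range f := by
    rintro ⟨x, y⟩ ⟨x', y'⟩ v hd h1 h2
    have h3 := hf (x, y) (x', y')
    rw [hd] at h3
    push_cast at h3
    have h5 : (x' = x + 1 + 1 ∧ y' = y) ∨ (x = x' + 1 + 1 ∧ y' = y) ∨ (x' = x ∧ y' = y + 1 + 1) ∨
        (x' = x ∧ y = y' + 1 + 1) ∨ (|x - x'| = 1 ∧ |y - y'| = 1) := by
      rcases abs_cases (x - x') with ⟨a1, a2⟩ | ⟨a1, a2⟩ <;>
        rcases abs_cases (y - y') with ⟨b1, b2⟩ | ⟨b1, b2⟩ <;> omega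
    rcases h5 with ⟨rfl, rfl⟩ | ⟨rfl, rfl⟩ | ⟨rfl, rfl⟩ | ⟨rfl, rfl⟩ | ⟨hx, hy⟩
    · exact ⟨_, (hr _ _ v h1 h2).symm⟩
    · exact ⟨_, (hr _ _ v h2 h1).symm⟩
    · exact ⟨_, (hu _ _ v h1 h2).symm⟩
    · exact ⟨_, (hu _ _ v h2 h1).symm⟩
    · by_contra hv
      have hyy : y ≠ y' := by
        rintro rfl
        simp at hy
      have hxx : x ≠ x' := by
        rintro rfl
        simp at hx
      have a1 : Γ.Adj (f (x, y)) (f (x', y)) := hf.adj (by simpa using hx)
      have a2 : Γ.Adj (f (x, y)) (f (x, y')) := hf.adj (by simpa using hy)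
      have a3 : Γ.Adj (f (x', y')) (f (x', y)) := hf.adj (by
        simp only [sub_self, abs_zero, zero_add]
        rw [abs_sub_comm]
        exact hy)
      have a4 : Γ.Adj (f (x', y')) (f (x, y')) := hf.adj (by
        simp only [sub_self, abs_zero, add_zero]
        rw [abs_sub_comm]
        exact hx)
      have := k23 h a1 a2 h1 a3 a4 h2 (fun e => by
        have := hf.inj e
        simp only [Prod.mk.injEq] at this
        omega) (fun e => hv ⟨_, e⟩) (fun e => hv ⟨_, e⟩)
      have := hf.inj this
      simp only [Prod.mk.injEq] at this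
      omega
  have key : ∀ (k : ℕ) (z w : ℤ × ℤ) (v : V), Γ.dist (f z) (f w) = k →
      Γ.dist (f z) v + Γ.dist v (f w) = Γ.dist (f z) (f w) → v ∈ Set.range f := by
    intro k
    induction k with
    | zero =>
      intro z w v hk hv
      rw [hk] at hv
      have : f z = v := h.1.dist_eq_zero_iff.1 (by omega)
      exact ⟨z, this⟩
    | succ k ih =>
      intro z w v hk hv
      rcases Nat.eq_zero_or_pos (Γ.dist (f z) v) with h0 | h0
      · exact ⟨z, h.1.dist_eq_zero_iff.1 h0⟩
      obtain ⟨j, hj⟩ := Nat.exists_eq_succ_of_ne_zero h0.ne'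
      obtain ⟨v1, zv, hv1⟩ := exists_nb h hj
      have t1 := h.1.dist_triangle (u := v1) (v := v) (w := f w)
      have t2 := h.1.dist_triangle (u := f z) (v := v1) (w := f w)
      have e1 := d1 zv
      by_cases hr1 : v1 ∈ Set.range f
      · obtain ⟨z1, rfl⟩ := hr1
        exact ih z1 w v (by omega) (by omega)
      · exfalso
        -- a step of the grid towards `w`
        obtain ⟨z1, hz1, hz2⟩ : ∃ z1 : ℤ × ℤ, Γ.Adj (f z) (f z1) ∧ Γ.dist (f z1) (f w) = k := by
          have h3 := hf z w
          rw [hk] at h3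
          push_cast at h3
          rcases lt_trichotomy z.1 w.1 with h4 | h4 | h4
          · refine ⟨(z.1 + 1, z.2), hf.adj (by simp), dist_flat hf ?_⟩
            simp only
            rw [abs_of_nonpos (by omega)] at h3 ⊢
            omega
          · rcases lt_trichotomy z.2 w.2 with h5 | h5 | h5
            · refine ⟨(z.1, z.2 + 1), hf.adj (by simp), dist_flat hf ?_⟩
              simp only
              rw [abs_of_nonpos (show z.2 - w.2 ≤ 0 by omega)] at h3
              rw [abs_of_nonpos (show z.2 + 1 - w.2 ≤ 0 by omega)]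
              omega
            · exfalso
              rw [h4, h5] at h3
              simp at h3
              omega
            · refine ⟨(z.1, z.2 - 1), hf.adj (by simp), dist_flat hf ?_⟩
              simp only
              rw [abs_of_nonneg (show 0 ≤ z.2 - w.2 by omega)] at h3
              rw [abs_of_nonneg (show 0 ≤ z.2 - 1 - w.2 by omega)]
              omega
          · refine ⟨(z.1 - 1, z.2), hf.adj (by simp), dist_flat hf ?_⟩
            simp only
            rw [abs_of_nonneg (show 0 ≤ z.1 - w.1 by omega)] at h3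
            rw [abs_of_nonneg (show 0 ≤ z.1 - 1 - w.1 by omega)]
            omega
        have hne : v1 ≠ f z1 := fun e => hr1 ⟨z1, e.symm⟩
        have c1 : Γ.dist (f w) (f z) = Γ.dist (f z) (f w) := SimpleGraph.dist_comm
        have c2 : Γ.dist (f w) v1 = Γ.dist v1 (f w) := SimpleGraph.dist_comm
        have c3 : Γ.dist (f w) (f z1) = Γ.dist (f z1) (f w) := SimpleGraph.dist_comm
        obtain ⟨d, hd1, hd2, hd3⟩ := quad h (v := f w) zv hz1 hne (by omega) (by omega)
        have c4 : Γ.dist (f w) d = Γ.dist d (f w) := SimpleGraph.dist_comm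
        obtain ⟨p, rfl⟩ := ih z1 w d hz2 (by rw [d1 hd2]; omega)
        refine hr1 (loc z p v1 ?_ zv hd1.symm)
        refine d2 h (u := v1) zv.symm hd1 fun e => ?_
        have e2 : Γ.dist (f z) (f w) = Γ.dist (f p) (f w) := by rw [e]
        omega
  exact fun z w v hv => key _ z w v rfl hv

/-- In a median graph without cubes every flat is convex. -/
theorem convex_of_noCube (h : IsMedian Γ) (hno : ¬ HasCube Γ) (hf : IsFlat Γ f) :
    ConvexImage Γ f :=
  convex_of_mid h hf (mid_of_noCube h hno hf)
    fun x y m h1 h2 => mid_of_noCube h hno hf.swap y x m h1 h2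

end Pool.Agent.W5h69.CR
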