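import Mathlib

/-!
# Median graphs, flats, and rectangles of agreement: definitions

The median graphs are exactly the 1-skeleta of the CAT(0) cube complexes (with the combinatorial
metric), by theorems of Chepoi, Gerasimov and Roller.
-/

set_option autoImplicit false

namespace Pool.Agent.W5h69.CR

/-- Median graphs: connected graphs in which any three vertices `a`, `b`, `c` have exactly one
median, i.e. a vertex `m` which lies on geodesics from `a` to `b`, from `b` to `c` and from `a` to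
`c`. -/
def IsMedian {V : Type*} (Γ : SimpleGraph V) : Prop :=
  Γ.Connected ∧ ∀ a b c : V, ∃! m : V, Γ.dist a m + Γ.dist m b = Γ.dist a b ∧
    Γ.dist b m + Γ.dist m c = Γ.dist b c ∧ Γ.dist a m + Γ.dist m c = Γ.dist a c

/-- A combinatorial flat: an isometric embedding of the square grid `ℤ × ℤ` (with the metric
`|x - x'| + |y - y'|`) into the graph. -/
def IsFlat {V : Type*} (Γ : SimpleGraph V) (f : ℤ × ℤ → V) : Prop :=
  ∀ z w : ℤ × ℤ, (Γ.dist (f z) (f w) : ℤ) = |z.1 - w.1| + |z.2 - w.2|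

/-- The image of `f` is convex: it contains all vertices on geodesics between its vertices. -/
def ConvexImage {V : Type*} (Γ : SimpleGraph V) (f : ℤ × ℤ → V) : Prop :=
  ∀ (z w : ℤ × ℤ) (v : V), Γ.dist (f z) v + Γ.dist v (f w) = Γ.dist (f z) (f w) →
    v ∈ Set.range f

/-- The graph contains the 1-skeleton of a cube of dimension three. -/
def HasCube {V : Type*} (Γ : SimpleGraph V) : Prop :=
  ∃ c : Bool × Bool × Bool → V, Function.Injective c ∧
    (∀ j k, Γ.Adj (c (false, j, k)) (c (true, j, k))) ∧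
    (∀ i k, Γ.Adj (c (i, false, k)) (c (i, true, k))) ∧
    ∀ i j, Γ.Adj (c (i, j, false)) (c (i, j, true))

/-- The finite rectangle `[p, q] × [r, s]` is a maximal rectangle of agreement of `f₁` and `f₂`:
they agree on it, and they differ at each vertex of the grid adjacent to one of its four sides. -/
def MaximalAgreement {V : Type*} (f₁ f₂ : ℤ × ℤ → V) (p q r s : ℤ) : Prop :=
  (∀ x y, p ≤ x → x ≤ q → r ≤ y → y ≤ s → f₁ (x, y) = f₂ (x, y)) ∧
  (∀ x, p ≤ x → x ≤ q → f₁ (x, s + 1) ≠ f₂ (x, s + 1) ∧ f₁ (x, r - 1) ≠ f₂ (x, r - 1)) ∧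
  ∀ y, r ≤ y → y ≤ s → f₁ (q + 1, y) ≠ f₂ (q + 1, y) ∧ f₁ (p - 1, y) ≠ f₂ (p - 1, y)

end Pool.Agent.W5h69.CR
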