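import Pool.Agent.W5h69.CR.Act

/-!
# Half-spaces of median graphs, Helly's theorem, and families of crossing walls
-/

set_option autoImplicit false

namespace Pool.Agent.W5h69.CR

variable {V : Type*} {Γ : SimpleGraph V}

theorem exists_nb (h : IsMedian Γ) {u b : V} {k : ℕ} (hk : Γ.dist u b = k + 1) :
    ∃ u1, Γ.Adj u u1 ∧ Γ.dist u1 b = k := by
  obtain ⟨p, hp⟩ := h.1.exists_walk_length_eq_dist u b
  cases p with
  | nil => simp at hk
  | @cons _ x _ hadj q =>
    refine ⟨x, hadj, ?_⟩
    rw [SimpleGraph.Walk.length_cons, hk] at hp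
    have h1 := SimpleGraph.dist_le q
    have h3 := d1 hadj
    have h4 := h.1.dist_triangle (u := u) (v := x) (w := b)
    omega

/-- An edge crossing the wall of `ab` defines the same half-spaces. -/
theorem hs_edge (h : IsMedian Γ) {a b : V} (ab : Γ.Adj a b) (k : ℕ) : ∀ u v : V, Γ.Adj u v →
    Γ.dist u b = k → Γ.dist u b < Γ.dist u a → Γ.dist v a < Γ.dist v b →
    ∀ w, Γ.dist w u < Γ.dist w v ↔ Γ.dist w b < Γ.dist w a := by
  induction k with
  | zero =>
    intro u v uv hk h1 h2 w
    have hu : u = b := h.1.dist_eq_zero_iff.1 hk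
    subst hu
    have h3 := d1 uv.symm
    have hv : v = a := h.1.dist_eq_zero_iff.1 (by omega)
    subst hv
    exact Iff.rfl
  | succ k ih =>
    intro u v uv hk h1 h2 w
    obtain ⟨u1, uu1, hu1⟩ := exists_nb h hk
    have s1 := step h ab u
    have s2 := step h ab v
    have s3 := step h uv a
    have s4 := step h uv b
    have s5 := step h uu1 a
    have s6 := step h uu1 b
    have s7 := step h ab u1
    have c1 : Γ.dist a u = Γ.dist u a := SimpleGraph.dist_comm
    have c2 : Γ.dist a v = Γ.dist v a := SimpleGraph.dist_comm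
    have c3 : Γ.dist b u = Γ.dist u b := SimpleGraph.dist_comm
    have c4 : Γ.dist b v = Γ.dist v b := SimpleGraph.dist_comm
    have c5 : Γ.dist a u1 = Γ.dist u1 a := SimpleGraph.dist_comm
    have c6 : Γ.dist b u1 = Γ.dist u1 b := SimpleGraph.dist_comm
    have hne : v ≠ u1 := by
      rintro rfl
      omega
    obtain ⟨m, vm, um, hm⟩ := quad h (v := a) uv uu1 hne (by omega) (by omega)
    have s8 := step h vm b
    have s9 := step h um b
    have s10 := step h ab m
    have c7 : Γ.dist a m = Γ.dist m a := SimpleGraph.dist_comm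
    have c8 : Γ.dist b m = Γ.dist m b := SimpleGraph.dist_comm
    have hr := ih u1 m um hu1 (by omega) (by omega) w
    rw [← hr]
    have n1 : v ≠ u1 := hne
    have n2 : u ≠ m := by
      rintro rfl
      omega
    exact ⟨fun hw => par h uv.symm um.symm vm uu1 n1 n2 hw,
      fun hw => par h um.symm uv.symm vm.symm uu1.symm n2.symm n1.symm hw⟩

/-- Convex sets of vertices. -/
def Cvx (Γ : SimpleGraph V) (S : V → Prop) : Prop :=
  ∀ x y m : V, S x → S y → Γ.dist x m + Γ.dist m y = Γ.dist x y → S m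

theorem hs_convex (h : IsMedian Γ) {a b : V} (ab : Γ.Adj a b) :
    Cvx Γ (fun v => Γ.dist v b < Γ.dist v a) := by
  intro x y m hx hy hm
  obtain ⟨k, hk⟩ : ∃ k, Γ.dist m x = k := ⟨_, rfl⟩
  induction k generalizing m with
  | zero =>
    have : m = x := h.1.dist_eq_zero_iff.1 hk
    rw [this]
    exact hx
  | succ k ih =>
    obtain ⟨m1, mm1, hm1⟩ := exists_nb h hk
    have t1 := h.1.dist_triangle (u := x) (v := m1) (w := y)
    have t2 := h.1.dist_triangle (u := m1) (v := m) (w := y)
    have t3 := d1 mm1.symm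
    have c1 : Γ.dist x m1 = Γ.dist m1 x := SimpleGraph.dist_comm
    have c2 : Γ.dist x m = Γ.dist m x := SimpleGraph.dist_comm
    have h1 : Γ.dist m1 b < Γ.dist m1 a := ih m1 (by omega) hm1
    by_contra hcon
    have s1 := step h ab m
    have := (hs_edge h ab _ m1 m mm1.symm rfl h1 (by omega) y).2 hy
    have c3 : Γ.dist y m1 = Γ.dist m1 y := SimpleGraph.dist_comm
    have c4 : Γ.dist y m = Γ.dist m y := SimpleGraph.dist_comm
    omega

theorem Cvx.and {S T : V → Prop} (hS : Cvx Γ S) (hT : Cvx Γ T) : Cvx Γ (fun v => S v ∧ T v) :=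
  fun x y m hx hy hm => ⟨hS x y m hx.1 hy.1 hm, hT x y m hx.2 hy.2 hm⟩

theorem helly3 (h : IsMedian Γ) {A B C : V → Prop} (hA : Cvx Γ A) (hB : Cvx Γ B) (hC : Cvx Γ C)
    (hAB : ∃ v, A v ∧ B v) (hBC : ∃ v, B v ∧ C v) (hAC : ∃ v, A v ∧ C v) :
    ∃ v, A v ∧ B v ∧ C v := by
  obtain ⟨a, a1, a2⟩ := hAB
  obtain ⟨b, b1, b2⟩ := hBC
  obtain ⟨c, c1, c2⟩ := hAC
  obtain ⟨m, ⟨m1, m2, m3⟩, -⟩ := h.2 a b c
  exact ⟨m, hA a c m a1 c1 m3, hB a b m a2 b1 m1, hC b c m b2 c2 m2⟩

theorem helly (h : IsMedian Γ) (n : ℕ) : ∀ S : ℕ → V → Prop, (∀ i ≤ n, Cvx Γ (S i)) →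
    (∀ i ≤ n, ∀ j ≤ n, ∃ v, S i v ∧ S j v) → ∃ v, ∀ i ≤ n, S i v := by
  induction n with
  | zero =>
    intro S _ h2
    obtain ⟨v, hv, -⟩ := h2 0 le_rfl 0 le_rfl
    exact ⟨v, fun i hi => by rw [Nat.le_zero.1 hi]; exact hv⟩
  | succ n ih =>
    intro S h1 h2
    obtain ⟨v, hv⟩ := ih (fun i v => S i v ∧ S (n + 1) v)
      (fun i hi => (h1 i (by omega)).and (h1 _ le_rfl)) (fun i hi j hj => by
        obtain ⟨v, v1, v2, v3⟩ := helly3 h (h1 i (by omega)) (h1 j (by omega)) (h1 _ le_rfl)
          (h2 i (by omega) j (by omega)) (h2 j (by omega) _ le_rfl) (h2 i (by omega) _ le_rfl)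
        exact ⟨v, ⟨v1, v3⟩, v2, v3⟩)
    refine ⟨v, fun i hi => ?_⟩
    rcases Nat.lt_or_ge i (n + 1) with h3 | h3
    · exact (hv i (by omega)).1
    · rw [show i = n + 1 by omega]
      exact (hv 0 (by omega)).2

/-- Families of pairwise crossing walls: `a i`, `b i` are adjacent, and all four intersections of
half-spaces are nonempty.  Then some vertex has many neighbours. -/
theorem crossing (h : IsMedian Γ) (n : ℕ) (a b : ℕ → V) (ab : ∀ i, Γ.Adj (a i) (b i))
    (p0 q0 : V) (hp0 : ∀ i ≤ n, Γ.dist p0 (a i) < Γ.dist p0 (b i))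
    (hq0 : ∀ i ≤ n, Γ.dist q0 (b i) < Γ.dist q0 (a i))
    (hcr : ∀ i ≤ n, ∀ j ≤ n, i ≠ j →
      ∃ v, Γ.dist v (a i) < Γ.dist v (b i) ∧ Γ.dist v (b j) < Γ.dist v (a j)) :
    ∃ (p : V) (s : Finset V), n + 1 ≤ s.card ∧ ∀ u ∈ s, Γ.Adj p u := by
  classical
  -- a closest pair
  have hex : ∃ k, ∃ p q, Γ.dist p q = k ∧ (∀ i ≤ n, Γ.dist p (a i) < Γ.dist p (b i)) ∧
      ∀ i ≤ n, Γ.dist q (b i) < Γ.dist q (a i) := ⟨_, p0, q0, rfl, hp0, hq0⟩
  obtain ⟨p, q, hpq, hp, hq⟩ := Nat.find_spec hex
  have hmin := fun m => Nat.find_min hex (m := m)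
  rw [← hpq] at hmin
  have main : ∀ j : ℕ, j ≤ n → ∃ p', Γ.Adj p p' ∧ Γ.dist p' (b j) < Γ.dist p' (a j) ∧
      ∀ i ≤ n, i ≠ j → Γ.dist p' (a i) < Γ.dist p' (b i) := by
    intro j hj
    obtain ⟨r, hr⟩ := helly h n
      (fun i v => if i = j then Γ.dist v (b i) < Γ.dist v (a i) else
        Γ.dist v (a i) < Γ.dist v (b i))
      (fun i hi => by
        by_cases hij : i = j
        · simp only [hij, if_true]
          exact hs_convex h (ab j)
        · simp only [if_neg hij]
          exact hs_convex h (ab i).symm)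
      (fun i hi i' hi' => by
        by_cases hij : i = j
        · subst hij
          by_cases hij' : i' = i
          · subst hij'
            simp only [if_true]
            exact ⟨q, hq i' hi', hq i' hi'⟩
          · simp only [if_true, if_neg hij']
            obtain ⟨v, v1, v2⟩ := hcr i' hi' i hi hij'
            exact ⟨v, v2, v1⟩
        · by_cases hij' : i' = j
          · subst hij'
            simp only [if_true, if_neg hij]
            exact hcr i hi i' hi' hij
          · simp only [if_neg hij, if_neg hij']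
            exact ⟨p, hp i hi, hp i' hi'⟩)
    obtain ⟨m, ⟨m1, m2, m3⟩, -⟩ := h.2 p q r
    have hrj : Γ.dist r (b j) < Γ.dist r (a j) := by simpa using hr j hj
    have hri : ∀ i ≤ n, i ≠ j → Γ.dist r (a i) < Γ.dist r (b i) := fun i hi hij => by
      simpa [hij] using hr i hi
    have hmj : Γ.dist m (b j) < Γ.dist m (a j) := hs_convex h (ab j) q r m (hq j hj) hrj m2
    have hmi : ∀ i ≤ n, i ≠ j → Γ.dist m (a i) < Γ.dist m (b i) := fun i hi hij =>
      hs_convex h (ab i).symm p r m (hp i hi) (hri i hi hij) m3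
    have hne : Γ.dist p m ≠ 0 := fun h0 => by
      have : p = m := h.1.dist_eq_zero_iff.1 h0
      subst this
      have := hp j hj
      omega
    obtain ⟨k, hk⟩ := Nat.exists_eq_succ_of_ne_zero hne
    obtain ⟨p', pp', hp'⟩ := exists_nb h hk
    have t1 := h.1.dist_triangle (u := p') (v := m) (w := q)
    have hp'i : ∀ i ≤ n, i ≠ j → Γ.dist p' (a i) < Γ.dist p' (b i) := fun i hi hij =>
      hs_convex h (ab i).symm p m p' (hp i hi) (hmi i hi hij) (by rw [d1 pp', hp', hk]; omega)
    refine ⟨p', pp', ?_, hp'i⟩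
    by_contra hcon
    have s1 := step h (ab j) p'
    refine hmin (Γ.dist p' q) (by omega) ⟨p', q, rfl, fun i hi => ?_, hq⟩
    by_cases hij : i = j
    · subst hij
      omega
    · exact hp'i i hi hij
  have : Nonempty V := ⟨p⟩
  choose! p' h1 h2 h3 using main
  refine ⟨p, (Finset.range (n + 1)).image p', ?_, fun u hu => ?_⟩
  · rw [Finset.card_image_of_injOn, Finset.card_range]
    intro i hi j hj hij
    rw [Finset.mem_coe, Finset.mem_range] at hi hj
    by_contra hne
    have e1 := h2 i (by omega)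
    have e2 := h3 j (by omega) i (by omega) hne
    rw [show p' i = p' j from hij] at e1
    omega
  · rw [Finset.mem_image] at hu
    obtain ⟨i, hi, rfl⟩ := hu
    rw [Finset.mem_range] at hi
    exact h1 i (by omega)

section act

variable {G : Type*} [Group G] [MulAction G V] {K : Set V}

theorem Geo.degree (hG : Geo Γ G K) : ∃ D : ℕ, ∀ (v : V) (s : Finset V),
    (∀ u ∈ s, Γ.Adj v u) → s.card ≤ D := by
  classical
  have hU : (⋃ v ∈ K, Γ.neighborSet v).Finite := hG.fin.biUnion fun v _ => hG.loc v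
  refine ⟨hU.toFinset.card, fun v s hs => ?_⟩
  obtain ⟨g, hg⟩ := hG.cov v
  have h1 : (s.image fun u => g • u) ⊆ hU.toFinset := by
    intro u hu
    rw [Finset.mem_image] at hu
    obtain ⟨w, hw, rfl⟩ := hu
    rw [Set.Finite.mem_toFinset]
    exact Set.mem_biUnion hg (hG.adj g v w (hs w hw))
  have h2 := Finset.card_le_card h1
  rwa [Finset.card_image_of_injective _ (MulAction.injective g)] at h2

/-- The half-space on the right of the column `x'` is contained in that of the column `x`. -/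
def Nested (Γ : SimpleGraph V) (f : ℤ × ℤ → V) (x x' : ℤ) : Prop :=
  ∀ (y : ℤ) (v : V), Rt Γ f x' y v → Rt Γ f x y v

theorem Geo.nested (hG : Geo Γ G K) : ∃ D : ℕ, ∀ f : ℤ × ℤ → V, IsFlat Γ f →
    ∀ x : ℕ → ℤ, (∀ i j, i < j → j ≤ D → x i < x j) →
    ∃ i j, i < j ∧ j ≤ D ∧ Nested Γ f (x i) (x j) := by
  obtain ⟨D, hD⟩ := hG.degree
  refine ⟨D, fun f hf x hx => ?_⟩
  by_contra hcon
  push Not at hcon
  have hle : ∀ i, i ≤ D → x 0 ≤ x i := fun i hi => by
    rcases Nat.eq_zero_or_pos i with rfl | h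
    · exact le_rfl
    · exact (hx 0 i h hi).le
  have hle' : ∀ i, i ≤ D → x i ≤ x D := fun i hi => by
    rcases Nat.lt_or_ge i D with h | h
    · exact (hx i D h le_rfl).le
    · rw [show i = D by omega]
  obtain ⟨p, s, hs, hadj⟩ := crossing hG.med D (fun i => f (x i, 0)) (fun i => f (x i + 1, 0))
    (fun i => hf.right _ _) (f (x 0, 0)) (f (x D + 1, 0)) (fun i hi => by
      have h1 := hf (x 0, 0) (x i + 1, 0)
      have h2 := hf (x 0, 0) (x i, 0)
      simp only [sub_self, abs_zero, add_zero] at h1 h2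
      have := hle i hi
      rw [abs_of_nonpos (by omega)] at h1 h2
      show Γ.dist (f (x 0, 0)) (f (x i, 0)) < Γ.dist (f (x 0, 0)) (f (x i + 1, 0))
      omega) (fun i hi => by
      have h1 := hf (x D + 1, 0) (x i + 1, 0)
      have h2 := hf (x D + 1, 0) (x i, 0)
      simp only [sub_self, abs_zero, add_zero] at h1 h2
      have := hle' i hi
      rw [abs_of_nonneg (by omega)] at h1 h2
      show Γ.dist (f (x D + 1, 0)) (f (x i + 1, 0)) < Γ.dist (f (x D + 1, 0)) (f (x i, 0))
      omega) (fun i hi j hj hij => by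
      rcases lt_or_gt_of_ne hij with h | h
      · -- i < j: the walls cross
        have := hcon i j h hj
        unfold Nested at this
        push Not at this
        obtain ⟨y, v, v1, v2⟩ := this
        rw [Rt_row hG.med hf _ y 0] at v1
        rw [Rt_row hG.med hf _ y 0] at v2
        refine ⟨v, ?_, v1⟩
        have s1 := step hG.med (hf.right (x i) 0) v
        unfold Rt at v2
        show Γ.dist v (f (x i, 0)) < Γ.dist v (f (x i + 1, 0))
        omega
      · -- j < i
        have hlt := hx j i h hi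
        have h1 := hf (x i, 0) (x i + 1, 0)
        have h2 := hf (x i, 0) (x i, 0)
        have h3 := hf (x i, 0) (x j + 1, 0)
        have h4 := hf (x i, 0) (x j, 0)
        simp only [sub_self, abs_zero, add_zero] at h1 h2 h3 h4
        rw [abs_of_nonpos (by omega)] at h1
        rw [abs_of_nonneg (by omega)] at h3 h4
        refine ⟨f (x i, 0), ?_, ?_⟩
        · show Γ.dist (f (x i, 0)) (f (x i, 0)) < Γ.dist (f (x i, 0)) (f (x i + 1, 0))
          omega
        · show Γ.dist (f (x i, 0)) (f (x j + 1, 0)) < Γ.dist (f (x i, 0)) (f (x j, 0))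
          omega)
  have := hD p s hadj
  omega

end act

end Pool.Agent.W5h69.CR
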