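import Pool.Agent.W5h69.CR.Defs

/-!
# Median graphs: basic facts on squares and half-spaces, and convex flats
-/

set_option autoImplicit false

namespace Pool.Agent.W5h69.CR

section graph

variable {V : Type*} {Γ : SimpleGraph V}

theorem d1 {a b : V} (h : Γ.Adj a b) : Γ.dist a b = 1 := SimpleGraph.dist_eq_one_iff_adj.2 h

theorem no_tri (h : IsMedian Γ) {a b c : V} (ab : Γ.Adj a b) (bc : Γ.Adj b c) (ac : Γ.Adj a c) :
    False := by
  obtain ⟨m, ⟨h1, h2, h3⟩, -⟩ := h.2 a b c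
  have e1 := d1 ab
  have e2 := d1 bc
  have e3 := d1 ac
  have e4 : Γ.dist m b = Γ.dist b m := SimpleGraph.dist_comm
  omega

theorem bip (h : IsMedian Γ) {a b : V} (ab : Γ.Adj a b) (v : V) : Γ.dist v a ≠ Γ.dist v b := by
  obtain ⟨m, ⟨h1, h2, h3⟩, -⟩ := h.2 v a b
  have e1 := d1 ab
  have e4 : Γ.dist m a = Γ.dist a m := SimpleGraph.dist_comm
  omega

theorem step (h : IsMedian Γ) {a b : V} (ab : Γ.Adj a b) (v : V) :
    Γ.dist v b = Γ.dist v a + 1 ∨ Γ.dist v a = Γ.dist v b + 1 := by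
  have h1 := bip h ab v
  have h2 := h.1.dist_triangle (u := v) (v := a) (w := b)
  have h3 := h.1.dist_triangle (u := v) (v := b) (w := a)
  have e1 := d1 ab
  have e2 := d1 ab.symm
  omega

theorem d2 (h : IsMedian Γ) {u a b : V} (ua : Γ.Adj u a) (ub : Γ.Adj u b) (hne : a ≠ b) :
    Γ.dist a b = 2 := by
  have h1 := h.1.dist_triangle (u := a) (v := u) (w := b)
  have e1 := d1 ua.symm
  have e2 := d1 ub
  have h2 : Γ.dist a b ≠ 0 := fun h0 => hne (h.1.dist_eq_zero_iff.1 h0)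
  have h3 : Γ.dist a b ≠ 1 := fun h0 =>
    no_tri h ua.symm ub (SimpleGraph.dist_eq_one_iff_adj.1 h0)
  omega

theorem quad (h : IsMedian Γ) {v u a c : V} (ua : Γ.Adj u a) (uc : Γ.Adj u c) (hne : a ≠ c)
    (ha : Γ.dist v u = Γ.dist v a + 1) (hc : Γ.dist v u = Γ.dist v c + 1) :
    ∃ m, Γ.Adj a m ∧ Γ.Adj c m ∧ Γ.dist v a = Γ.dist v m + 1 := by
  obtain ⟨m, ⟨h1, h2, h3⟩, -⟩ := h.2 v a c
  have h4 := d2 h ua uc hne
  have e1 : Γ.dist m a = Γ.dist a m := SimpleGraph.dist_comm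
  have e2 : Γ.dist m c = Γ.dist c m := SimpleGraph.dist_comm
  refine ⟨m, SimpleGraph.dist_eq_one_iff_adj.1 (by omega),
    SimpleGraph.dist_eq_one_iff_adj.1 (by omega), by omega⟩

theorem k23 (h : IsMedian Γ) {u w a b c : V} (ua : Γ.Adj u a) (ub : Γ.Adj u b) (uc : Γ.Adj u c)
    (wa : Γ.Adj w a) (wb : Γ.Adj w b) (wc : Γ.Adj w c) (ab : a ≠ b) (bc : b ≠ c) (ac : a ≠ c) :
    u = w := by
  obtain ⟨m, -, hm⟩ := h.2 a b c
  have e1 := d2 h ua ub ab
  have e2 := d2 h ub uc bc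
  have e3 := d2 h ua uc ac
  have key : ∀ x : V, Γ.Adj x a → Γ.Adj x b → Γ.Adj x c → x = m := by
    intro x xa xb xc
    refine hm x ⟨?_, ?_, ?_⟩
    · rw [d1 xa.symm, d1 xb, e1]
    · rw [d1 xb.symm, d1 xc, e2]
    · rw [d1 xa.symm, d1 xc, e3]
  rw [key u ua ub uc, key w wa wb wc]

/-- Opposite edges of a square define the same half-space. -/
theorem par (h : IsMedian Γ) {u u' w w' : V} (uu : Γ.Adj u u') (ww : Γ.Adj w w')
    (uw : Γ.Adj u w) (uw' : Γ.Adj u' w') (h1 : u ≠ w') (h2 : u' ≠ w) {v : V}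
    (hv : Γ.dist v u' < Γ.dist v u) : Γ.dist v w' < Γ.dist v w := by
  by_contra hcon
  have s1 := step h uu v
  have s2 := step h ww v
  have s3 := step h uw v
  have s4 := step h uw' v
  have hu : Γ.dist v u = Γ.dist v u' + 1 := by omega
  have hw : Γ.dist v u = Γ.dist v w + 1 := by omega
  obtain ⟨m, m1, m2, m3⟩ := quad h uu uw h2 hu hw
  have hmu : u ≠ m := by
    rintro rfl
    omega
  have hmw : w' ≠ m := by
    rintro rfl
    omega
  exact h2 (k23 h uu.symm uw' m1 uw.symm ww m2 h1 hmw hmu)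

/-- Half-spaces of consecutive edges which do not span a square are nested. -/
theorem nest (h : IsMedian Γ) {a u c : V} (au : Γ.Adj a u) (uc : Γ.Adj u c) (hac : a ≠ c)
    (huniq : ∀ m, Γ.Adj a m → Γ.Adj c m → m = u) {v : V} (hv : Γ.dist v c < Γ.dist v u) :
    Γ.dist v u < Γ.dist v a := by
  by_contra hcon
  have s1 := step h au v
  have s2 := step h uc v
  obtain ⟨m, m1, m2, m3⟩ := quad h au.symm uc hac (v := v) (by omega) (by omega)
  have := huniq m m1 m2
  subst this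
  omega

end graph

section flat

variable {V : Type*} {Γ : SimpleGraph V} {f : ℤ × ℤ → V}

theorem IsFlat.inj (hf : IsFlat Γ f) {z w : ℤ × ℤ} (h : f z = f w) : z = w := by
  have h1 := hf z w
  rw [h, SimpleGraph.dist_self, Nat.cast_zero] at h1
  have h2 := abs_nonneg (z.1 - w.1)
  have h3 := abs_nonneg (z.2 - w.2)
  have h4 : |z.1 - w.1| = 0 := by omega
  have h5 : |z.2 - w.2| = 0 := by omega
  rw [abs_eq_zero] at h4 h5
  exact Prod.ext (by omega) (by omega)

theorem IsFlat.adj (hf : IsFlat Γ f) {z w : ℤ × ℤ} (h : |z.1 - w.1| + |z.2 - w.2| = 1) :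
    Γ.Adj (f z) (f w) := by
  have h1 := hf z w
  rw [h] at h1
  exact SimpleGraph.dist_eq_one_iff_adj.1 (by exact_mod_cast h1)

theorem IsFlat.right (hf : IsFlat Γ f) (x y : ℤ) : Γ.Adj (f (x, y)) (f (x + 1, y)) :=
  hf.adj (by simp)

theorem IsFlat.up (hf : IsFlat Γ f) (x y : ℤ) : Γ.Adj (f (x, y)) (f (x, y + 1)) :=
  hf.adj (by simp)

theorem IsFlat.swap (hf : IsFlat Γ f) : IsFlat Γ (fun z => f (z.2, z.1)) := fun z w => by
  rw [hf]
  exact add_comm _ _

theorem IsFlat.neg1 (hf : IsFlat Γ f) : IsFlat Γ (fun z => f (-z.1, z.2)) := fun z w => by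
  rw [hf]
  congr 1
  simp only
  rw [show -z.1 - -w.1 = -(z.1 - w.1) by ring, abs_neg]

theorem IsFlat.add (hf : IsFlat Γ f) (b : ℤ × ℤ) : IsFlat Γ (fun z => f (z + b)) := fun z w => by
  rw [hf]
  simp only [Prod.fst_add, Prod.snd_add, add_sub_add_right_eq_sub]

theorem ConvexImage.comp (hf : ConvexImage Γ f) {t : ℤ × ℤ → ℤ × ℤ}
    (ht : Function.Surjective t) : ConvexImage Γ (f ∘ t) := by
  intro z w v hv
  obtain ⟨p, hp⟩ := hf (t z) (t w) v hv
  obtain ⟨q, rfl⟩ := ht p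
  exact ⟨q, hp⟩

theorem ConvexImage.swap (hf : ConvexImage Γ f) : ConvexImage Γ (fun z => f (z.2, z.1)) :=
  hf.comp (t := fun z => (z.2, z.1)) fun p => ⟨(p.2, p.1), rfl⟩

theorem ConvexImage.neg1 (hf : ConvexImage Γ f) : ConvexImage Γ (fun z => f (-z.1, z.2)) :=
  hf.comp (t := fun z => (-z.1, z.2)) fun p => ⟨(-p.1, p.2), by simp⟩

theorem ConvexImage.add (hf : ConvexImage Γ f) (b : ℤ × ℤ) :
    ConvexImage Γ (fun z => f (z + b)) :=
  hf.comp (t := fun z => z + b) fun p => ⟨p - b, by simp⟩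

/-- In a convex flat the middle of two vertices at distance two in a row is unique. -/
theorem mid (hf : IsFlat Γ f) (hc : ConvexImage Γ f) (x y : ℤ) (m : V)
    (h1 : Γ.Adj (f (x, y)) m) (h2 : Γ.Adj (f (x + 1 + 1, y)) m) : m = f (x + 1, y) := by
  have e : Γ.dist (f (x, y)) (f (x + 1 + 1, y)) = 2 := by
    have := hf (x, y) (x + 1 + 1, y)
    simp only [sub_self, abs_zero, add_zero] at this
    rw [show x - (x + 1 + 1) = -2 by ring] at this
    norm_num at this
    exact_mod_cast this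
  obtain ⟨p, rfl⟩ := hc (x, y) (x + 1 + 1, y) m (by rw [d1 h1, d1 h2.symm, e])
  have h3 := hf (x, y) p
  have h4 := hf (x + 1 + 1, y) p
  rw [d1 h1] at h3
  rw [d1 h2] at h4
  simp only [Nat.cast_one] at h3 h4
  congr 1
  refine Prod.ext ?_ ?_
  · rcases abs_cases (x - p.1) with h5 | h5 <;> rcases abs_cases (x + 1 + 1 - p.1) with h6 | h6 <;>
      rcases abs_cases (y - p.2) with h7 | h7 <;> simp only at * <;> omega
  · rcases abs_cases (x - p.1) with h5 | h5 <;> rcases abs_cases (x + 1 + 1 - p.1) with h6 | h6 <;>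
      rcases abs_cases (y - p.2) with h7 | h7 <;> simp only at * <;> omega

/-- The half-space on the right of the wall between the columns `x` and `x + 1`. -/
def Rt (Γ : SimpleGraph V) (f : ℤ × ℤ → V) (x y : ℤ) (v : V) : Prop :=
  Γ.dist v (f (x + 1, y)) < Γ.dist v (f (x, y))

theorem const_of_succ {P : ℤ → Prop} (h : ∀ y, P y ↔ P (y + 1)) (y y' : ℤ) : P y ↔ P y' := by
  have key : ∀ (n : ℕ) (y : ℤ), P y ↔ P (y + n) := by
    intro n
    induction n with
    | zero => intro y; simp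
    | succ n ih =>
      intro y
      rw [ih y, h (y + n)]
      push_cast
      rw [add_assoc]
  rcases le_total y y' with hy | hy
  · obtain ⟨n, hn⟩ := Int.eq_ofNat_of_zero_le (sub_nonneg.2 hy)
    have := key n y
    rwa [show y + (n : ℤ) = y' by omega] at this
  · obtain ⟨n, hn⟩ := Int.eq_ofNat_of_zero_le (sub_nonneg.2 hy)
    have := key n y'
    rw [show y' + (n : ℤ) = y by omega] at this
    exact this.symm

theorem Rt_row (h : IsMedian Γ) (hf : IsFlat Γ f) (x y y' : ℤ) (v : V) :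
    Rt Γ f x y v ↔ Rt Γ f x y' v := by
  refine const_of_succ (P := fun y => Rt Γ f x y v) (fun y => ?_) y y'
  have a1 := hf.right x y
  have a2 := hf.right x (y + 1)
  have a3 := hf.up x y
  have a4 := hf.up (x + 1) y
  have n1 : f (x, y) ≠ f (x + 1, y + 1) := fun h => by
    have := hf.inj h
    simp at this
  have n2 : f (x + 1, y) ≠ f (x, y + 1) := fun h => by
    have := hf.inj h
    simp at this
  exact ⟨fun hv => par h a1 a2 a3 a4 n1 n2 hv,
    fun hv => par h a2 a1 a3.symm a4.symm n2.symm n1.symm hv⟩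

theorem Rt_succ (h : IsMedian Γ) (hf : IsFlat Γ f) (hc : ConvexImage Γ f) (x y : ℤ) (v : V)
    (hv : Rt Γ f (x + 1) y v) : Rt Γ f x y v := by
  refine nest h (hf.right x y) (hf.right (x + 1) y) (fun e => ?_) (mid hf hc x y) hv
  have := hf.inj e
  simp only [Prod.mk.injEq, and_true] at this
  omega

theorem Rt_mono (h : IsMedian Γ) (hf : IsFlat Γ f) (hc : ConvexImage Γ f) {x x' : ℤ}
    (hx : x ≤ x') (y : ℤ) (v : V) (hv : Rt Γ f x' y v) : Rt Γ f x y v := by
  obtain ⟨n, hn⟩ := Int.eq_ofNat_of_zero_le (sub_nonneg.2 hx)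
  obtain rfl : x' = x + n := by omega
  clear hn hx
  induction n with
  | zero => simpa using hv
  | succ n ih =>
    apply ih
    push_cast at hv
    rw [← add_assoc] at hv
    exact Rt_succ h hf hc _ _ _ hv

theorem Rt_self (hf : IsFlat Γ f) {x x' : ℤ} (hx : x' ≤ x) (y : ℤ) :
    Rt Γ f x' y (f (x + 1, y)) := by
  have h1 := hf (x + 1, y) (x' + 1, y)
  have h2 := hf (x + 1, y) (x', y)
  simp only [sub_self, abs_zero, add_zero] at h1 h2
  rw [abs_of_nonneg (by omega)] at h1 h2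
  unfold Rt
  omega

theorem not_Rt (hf : IsFlat Γ f) {x x' : ℤ} (hx : x < x') (y : ℤ) :
    ¬ Rt Γ f x' y (f (x + 1, y)) := by
  have h1 := hf (x + 1, y) (x' + 1, y)
  have h2 := hf (x + 1, y) (x', y)
  simp only [sub_self, abs_zero, add_zero] at h1 h2
  rw [abs_of_nonpos (by omega)] at h1 h2
  unfold Rt
  omega

end flat

end Pool.Agent.W5h69.CR
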